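import Pool.Agent.helper17.EXT.Defs

/-!
# Project EXT (MP_561ff4_al): Q1 for the groups `F₄(q)` and `²E₆(q)`. The rows of the geometry

RULES. Row `XXX`: file `Pool/Agent/<seat>/EXT/XXX.lean`, `import Pool.Agent.helper17.EXT.Spec`, `set_option autoImplicit false`,
`open Finset`, `namespace Pool.Agent.EXT`, `open Pool.Agent.EXC`, theorem line exactly as in the lock note (other rows only as hypotheses),
auxiliary lemmas prefixed `XXX_`. No straight double quotes, no convert / congr!. Land, note DONE + path, one line to helper17.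
ALL rows of project EXC are available as theorems `f_XXX : Pool.Agent.EXC.XXX_stmt` (`f_EXF`, `f_ACT`, `f_COL`, `f_XAU`, `f_TPF`, `f_UNQ`, `f_NBR`,
`f_DMN`, ...; statements in `Pool/Agent/helper17/EXC/Spec.lean`, `SpecRA.lean`; proofs in `Pool/Agent/*/EXC/`): most rows below are the
`σ`-versions of rows there (named in the docstring); adapt that file. With `n = 6`, `C = C6`, `j0 = 1`, `θ = th`, `δ = ![0, 2, 3, 4, 5]`:
`f_DE6.2 : IsE CartanMatrix.E₆ 1 th ![0, 2, 3, 4, 5]`.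
CONVENTIONS. A scalar `c : K` is called fixed if `τ c = c`. Long roots `LR` (24, type `D₄`), short roots `SR` (48), `πγ = pv γ`.
`e_γ(t) = t E_γ + sn γ τ(t) E_{πγ}` (a fixed vector of `σ`); `X_γ(t)` is a `g` with `IsS τ γ t g`.
-/

set_option autoImplicit false

open Finset

namespace Pool.Agent.EXT

open Pool.Agent.EXC

/-! ## A. Roots -/

/-- **LST** (short). The list of the roots. `RL` is closed under `rf C6 i` (`decide +kernel` over the list) and contains `sr 0`; by `f_DOM` (`J = univ`, `f_DE6.2.con`) every root is obtained from `sr 0` by reflections. Conversely `decide +kernel`. -/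
def LST_stmt : Prop := ∀ v : Fin 6 → ℤ, ip C6 v v = 2 ↔ v ∈ RL

/-- **RTF** (short-medium). uses: LST. Facts on the symmetry. `ip`, `pv`, `Pos`: expand the sums over `Fin 6` (`Fin.sum_univ_six`), `pn` on the six nodes. Signs: `sn` with `Even` and `ring`-identities; the relation for `sg`: `bf (pv v) (pv w) - bf v w` is modulo 2 the polarisation of `v0 v2 + v2 v3 + v3 v4 + v4 v5` (the edges
whose order is reversed by the symmetry). `γ ⊥ πγ` for short roots: `decide +kernel` over `RL`. -/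
def RTF_stmt : Prop := (∀ v w, ip C6 (pv v) (pv w) = ip C6 v w) ∧ (∀ v, pv (pv v) = v) ∧ (∀ v w, pv (v + w) = pv v + pv w) ∧
  (∀ v, pv (-v) = -pv v) ∧ (∀ i, pv (sr i) = sr (pn i)) ∧ (∀ v, Pos v → Pos (pv v)) ∧ (∀ v, sn v = 1 ∨ sn v = -1) ∧ (∀ v, sn (pv v) = sn v) ∧
  (∀ v, sn (-v) = sn v) ∧ (∀ i, sn (sr i) = 1) ∧ (∀ v, pv v = v → sn v = 1) ∧
  (∀ v w, sg C6 (pv v) (pv w) * sg C6 v w = sn (v + w) * sn v * sn w) ∧ (∀ γ, SR γ → ip C6 γ (pv γ) = 0) ∧ LR th ∧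
  ∀ v, ip C6 th v = v 1

/-- **WST** (medium). uses: LST, RTF. Transitivity of the relative Weyl group, by computation: all ordered pairs of long roots with given product are in one orbit (orbits of size 24, 192, 144, 192, 24; the relation is symmetric as `wS i` is an involution; find for every pair a word to a standard pair
by a computed breadth first search, `decide +kernel`), every short root is in the orbit of `sr 0` (48 roots). The last part: `wS i` preserves `ip` and commutes with `pv`. -/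
def WST_stmt : Prop := (∀ α β α' β', LR α → LR β → LR α' → LR β' → ip C6 α β = ip C6 α' β' → WS (α, β) (α', β')) ∧
  (∀ γ, SR γ → WS (γ, γ) (sr 0, sr 0)) ∧
  ∀ p q, WS p q → ip C6 q.1 q.2 = ip C6 p.1 p.2 ∧ ip C6 q.1 q.1 = ip C6 p.1 p.1 ∧ ip C6 q.2 q.2 = ip C6 p.2 p.2 ∧ (pv p.1 = p.1 ↔ pv q.1 = q.1) ∧
    (pv p.2 = p.2 ↔ pv q.2 = q.2) ∧ WS q p

/-! ## B. The group -/

/-- **SIG** (medium). uses: RTF. `σ` is a semilinear involutory automorphism of the bracket and the form. Additivity etc. from the definition (`cf`). Bracket: by `Lm_ind` in `v` and `w`; `[E β, E γ]`: `br_E_E`, RTF (sign relation, `ip` invariant). The form: `fm_E_E` and the coordinates. -/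
def SIG_stmt : Prop := ∀ (K : Type) [Field K] (τ : K ≃+* K), (∀ x, τ (τ x) = x) →
  (∀ v w : Lm C6 K, si τ (v + w) = si τ v + si τ w) ∧ (∀ (c : K) (v : Lm C6 K), si τ (c • v) = τ c • si τ v) ∧ (∀ v : Lm C6 K, si τ (si τ v) = v) ∧
  (∀ v w : Lm C6 K, si τ (br C6 v w) = br C6 (si τ v) (si τ w)) ∧ (∀ v w : Lm C6 K, fm C6 (si τ v) (si τ w) = τ (fm C6 v w)) ∧
  (∀ γ, ip C6 γ γ = 2 → si τ (E C6 γ) = (sn γ : K) • (E C6 (pv γ) : Lm C6 K)) ∧ (∀ β, si τ (ht C6 β : Lm C6 K) = ht C6 (pv β)) ∧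
  ∀ (a : Lm C6 K) (t : K) (v : Lm C6 K), si τ (xe C6 a t v) = xe C6 (si τ a) (τ t) (si τ v)

/-- **SGR** (medium). uses: RTF, SIG. The generators. `X_γ(t)` exists (`f_XAU`, `f_EXF`: product of the two), it is in `GS τ`; the two factors commute (`f_COL`, `γ ⊥ πγ`), so `X_γ(s) X_γ(t) = X_γ(s+t)` and `X_{πγ}(sn γ τ t) = X_γ(t)`; `σ x_a(t) v = x_{σa}(τt) σ v` gives that it commutes with `σ`. Closure induction. -/
def SGR_stmt : Prop := ∀ (K : Type) [Field K] (τ : K ≃+* K), (∀ x, τ (τ x) = x) →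
  (∀ γ t, SR γ → ∃ g ∈ GS τ, IsS τ γ t g) ∧ (∀ β t, LR β → τ t = t → ∃ g ∈ GS τ, IsX C6 (E C6 β) t g) ∧
  (∀ γ (s t : K) (g h : Lm C6 K ≃ₗ[K] Lm C6 K), SR γ → IsS τ γ s g → IsS τ γ t h → IsS τ γ (s + t) (g * h)) ∧
  (∀ γ (t : K) (g : Lm C6 K ≃ₗ[K] Lm C6 K), SR γ → IsS τ γ t g → IsS τ (pv γ) ((sn γ : K) * τ t) g ∧ g ∈ GS τ) ∧
  (∀ i (t : K) (g : Lm C6 K ≃ₗ[K] Lm C6 K), XI τ i t g ∨ YI τ i t g → g ∈ GS τ) ∧
  ∀ g ∈ GS τ, g ∈ GE C6 K ∧ Au C6 g ∧ ∀ v, si τ (g v) = g (si τ v)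

/-- **ESF** (short-medium). uses: SIG, SGR. Facts on extremal vectors, from `f_EXF`. -/
def ESF_stmt : Prop := ∀ (K : Type) [Field K] (τ : K ≃+* K), (∀ x, τ (τ x) = x) → (∀ β, LR β → ExS τ (E C6 β : Lm C6 K)) ∧
  ∀ a : Lm C6 K, ExS τ a → Ex C6 a ∧ a ≠ 0 ∧ si τ a = a ∧ (∀ g ∈ GS τ, ExS τ (g a)) ∧ (∀ c : K, τ c = c → c ≠ 0 → ExS τ (c • a)) ∧
    (∀ t : K, τ t = t → ∃ g ∈ GS τ, IsX C6 a t g) ∧ (∀ (t : K) g, τ t = t → IsX C6 a t g → g ∈ GS τ) ∧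
    ∀ g ∈ GS τ, ∀ t h, IsX C6 a t h → IsX C6 (g a) t (g * h * g⁻¹)

/-- **ACS** (short-medium). uses: RTF. `X_γ(t)` on a long root vector: `f_ACT` twice. `(γ, β) = (πγ, β)` as `πβ = β`; it is not `±2` as `β ≠ ±γ`. `(γ, πγ + β) = (γ, β)`. `γ + πγ + β` is fixed by `π` and a root. -/
def ACS_stmt : Prop := ∀ (K : Type) [Field K] (τ : K ≃+* K), (∀ x, τ (τ x) = x) → ∀ γ β, SR γ → LR β →
  ip C6 (pv γ) β = ip C6 γ β ∧ -1 ≤ ip C6 γ β ∧ ip C6 γ β ≤ 1 ∧ ∀ (t : K) (g : Lm C6 K ≃ₗ[K] Lm C6 K), IsS τ γ t g →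
  (0 ≤ ip C6 γ β → g (E C6 β) = E C6 β) ∧
  (ip C6 γ β = -1 → LR (γ + pv γ + β) ∧ g (E C6 β) = (E C6 β + (t * (sg C6 γ β : K)) • E C6 (γ + β) +
    ((sn γ : K) * τ t * (sg C6 (pv γ) β : K)) • E C6 (pv γ + β) +
    (t * ((sn γ : K) * τ t) * (sg C6 (pv γ) β : K) * (sg C6 γ (pv γ + β) : K)) • E C6 (γ + pv γ + β) : Lm C6 K))

/-- **GFX** (short-medium). uses: SIG, SGR, ESF, ACS. The group `GF`. `g ∈ GS` maps `LT` onto `LT` (it commutes with `σ`), so it induces a permutation. `f, f'` with `IsF a s f`, `IsF a t f'`: `xe a s (xe a t v) = xe a (s+t) v` (`f_XAU`). Injectivity: `a = c g (E β)`, evaluate at `g (E δ) ∈ LT`, `δ` long, `(β, δ) = -1`. -/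
def GFX_stmt : Prop := ∀ (K : Type) [Field K] (τ : K ≃+* K), (∀ x, τ (τ x) = x) →
  (∀ g ∈ GS τ, ∃ f ∈ GF τ, ∀ v : LT τ, (f v : Lm C6 K) = g v) ∧
  ∀ a : Lm C6 K, ExS τ a → (∀ t, τ t = t → ∃ f ∈ GF τ, IsF τ a t f) ∧ (∀ t f, τ t = t → IsF τ a t f → f ∈ GF τ) ∧
    (∀ s t f f', IsF τ a s f → IsF τ a t f' → IsF τ a (s + t) (f * f')) ∧ (∀ s t f, IsF τ a s f → IsF τ a t f → s = t) ∧
    ∀ f ∈ GF τ, ∀ g ∈ GS τ, (∀ v : LT τ, (f v : Lm C6 K) = g v) → ∀ t h, IsF τ a t h → IsF τ (g a) t (f * h * f⁻¹)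

/-- **NRS** (medium). uses: RTF, SGR. The relative reflections (as `NRF`, `Pool/Agent/helper49/EXC/NRF.lean`). `α = sr i`. If `pn i = i`: `g = x_α(1) x_{-α}(1) x_α(1)`. Otherwise `g = X_α(1) X_{-α}(1) X_α(1)` (`sn = 1`) is the product of the commuting elements `x_α(1) x_{-α}(1) x_α(1)` and
`x_{πα}(1) x_{-πα}(1) x_{πα}(1)` (the factors of the first commute with those of the second, `f_COL`, `α ⊥ πα`); each maps `E γ` to `± E (rf γ)` (computation of `NRF`). -/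
def NRS_stmt : Prop := ∀ (K : Type) [Field K] (τ : K ≃+* K), (∀ x, τ (τ x) = x) → ∀ i, ∃ g ∈ GP τ, ∀ γ, ip C6 γ γ = 2 →
  ∃ s : ℤ, (s = 1 ∨ s = -1) ∧ g (E C6 γ) = (s : K) • (E C6 (wS i γ) : Lm C6 K)

/-- **GEP** (medium). uses: RTF, WST, SIG, SGR, NRS. The group is generated by the relative simple root elements. A long root `β` is `w (sr 1)` (WST with pairs `(β, β)`), so there is `g ∈ GP` with `g (E β) = ± E (sr 1)` (NRS, induction on the chain), `g x_β(t) g⁻¹ = x_{sr 1}(± t) ∈ GP`. A short root `γ`: `g (E γ) = s E (sr 0)`;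
`g` commutes with `σ` (`GP ≤ GS`), so `g (E πγ) = sn γ g (σ E γ) = sn γ s E (sr 5)`; `g X_γ(t) g⁻¹ = x_{sr 0}(s t) x_{sr 5}(s τ t) = X_{sr 0}(s t) ∈ GP` (conjugation: `f_XAU`/`f_EXF`; scalars: `xe (c • a) t = xe a (c t)`). -/
def GEP_stmt : Prop := ∀ (K : Type) [Field K] (τ : K ≃+* K), (∀ x, τ (τ x) = x) → GS τ = GP τ

/-- **WPS** (short). uses: NRS, GEP, WST. Induction on the chain. -/
def WPS_stmt : Prop := ∀ (K : Type) [Field K] (τ : K ≃+* K), (∀ x, τ (τ x) = x) → ∀ α β α' β' : Fin 6 → ℤ, ip C6 α α = 2 → ip C6 β β = 2 →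
  WS (α, β) (α', β') → ∃ g ∈ GS τ, ∃ s s' : ℤ, (s = 1 ∨ s = -1) ∧ (s' = 1 ∨ s' = -1) ∧ g (E C6 α) = (s : K) • (E C6 α' : Lm C6 K) ∧
    g (E C6 β) = (s' : K) • (E C6 β' : Lm C6 K)

/-! ## C. Bruhat decomposition for long root points -/

/-- **UPR** (medium). The unipotent group `UJ K i` of `E₆` (as `UIN`, `Pool/Agent/helper25/EXC/UIN.lean`, for the two orthogonal simple roots `sr i`, `sr (pn i)`). Conjugation of a generator `x_δ(c)` by `x_{±sr j}(t)`: `x_δ(c)` or `x_δ(c) x_{δ ± sr j}(..)`, `δ ± sr j` is positive (`f_RFP`) and not `sr i`, `sr (pn i)`.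
Decomposition: the set of the products `u' g g'` is closed under left multiplication by generators of `UG`. -/
def UPR_stmt : Prop := ∀ (K : Type) [Field K] (i : Fin 6), UJ K i ≤ UG C6 K ∧
  (∀ u ∈ UJ K i, ∀ j, (j = i ∨ j = pn i) → ∀ (t : K) (g : Lm C6 K ≃ₗ[K] Lm C6 K), (IsX C6 (E C6 (sr j)) t g ∨ IsX C6 (E C6 (-sr j)) t g) →
    g * u * g⁻¹ ∈ UJ K i) ∧
  ∀ u ∈ UG C6 K, ∃ u' ∈ UJ K i, ∃ (s s' : K) (g g' : Lm C6 K ≃ₗ[K] Lm C6 K), IsX C6 (E C6 (sr i)) s g ∧ IsX C6 (E C6 (sr (pn i))) s' g' ∧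
    (pn i = i → s' = 0) ∧ u = u' * (g * g')

/-- **UDC** (medium). uses: RTF, SIG, SGR, UPR. `u ∈ GS` unipotent: `u = u' X_i(t)` with both factors in `GS`. UPR: `u = u' g g'` with parameters `s, s'`. `u E(-sr i) = u' (E(-sr i) - s h_i + s² E_i)`; vectors of the form `E(-sr i) - s h_i +` (multiples of positive root vectors) are mapped to such vectors by the generators
`x_δ(t)` of `UJ` (`δ - sr i` is a positive root or no root). In the same way the `H`-part of `u E(-sr (pn i))` is `-s' h_{pn i}` (if `pn i ≠ i`). As `u` commutes with `σ`: `s' = τ s` if `pn i ≠ i`, `τ s = s` if `pn i = i` (`h_i ≠ 0`: coordinate `i` is 1). So `X = g g'` satisfies `XI τ i s X`, it is in `GS`, and `u' = u X⁻¹` too.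
The last part: `UPR`, an element `X_{±i}(t)` is a product of two elements `x_{±sr j}`. -/
def UDC_stmt : Prop := ∀ (K : Type) [Field K] (τ : K ≃+* K), (∀ x, τ (τ x) = x) → ∀ i : Fin 6,
  (∀ u ∈ GS τ, u ∈ UG C6 K → ∃ u' ∈ GS τ, u' ∈ UJ K i ∧ ∃ (t : K) (g : Lm C6 K ≃ₗ[K] Lm C6 K), g ∈ GS τ ∧ g ∈ UG C6 K ∧ XI τ i t g ∧ u = u' * g) ∧
  ∀ u ∈ UJ K i, ∀ (t : K) (y : Lm C6 K ≃ₗ[K] Lm C6 K), XI τ i t y ∨ YI τ i t y → y * u * y⁻¹ ∈ UJ K i

/-- **RKS** (medium). uses: RTF, ACS. Rank one (as `RKO`, `Pool/Agent/helper14/EXC/RKO.lean`). `pn i = i`: as there, all scalars fixed. `pn i ≠ i`, `m = (β, sr i) = (β, sr (pn i))`: `m = 0`: `E β`. `m = 1`: `x (E β) = E β`; `y (E β)` is `E β` if `t = 0`, otherwise `c x' (E (β - sr i - sr (pn i)))` with `c = ± t τ(t)`,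
`s' = ± 1/t`. `m = -1`: `y x (E β)`: with `a = 1 + ε s t` (`ε = sg(-sr i, β + sr i) sg(sr i, β)`; `x(E β)` is a pure tensor): if `a ≠ 0` it is `a τ(a) x' (E β)`, `s' = s / a`; if `a = 0` it is `± s τ(s) E (β + sr i + sr (pn i))` (`s' = 0`). Signs: bilinearity of `sg`, `sg(α,α) = -1`, `sg(sr i, sr (pn i)) = sg(sr (pn i), sr i)`. -/
def RKS_stmt : Prop := ∀ (K : Type) [Field K] (τ : K ≃+* K), (∀ x, τ (τ x) = x) → ∀ (i : Fin 6) (β : Fin 6 → ℤ) (s t : K)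
  (x y : Lm C6 K ≃ₗ[K] Lm C6 K), LR β → XI τ i s x → YI τ i t y → ∃ β', LR β' ∧ ∃ c : K, τ c = c ∧ c ≠ 0 ∧ ∃ (s' : K) (x' : Lm C6 K ≃ₗ[K] Lm C6 K),
    XI τ i s' x' ∧ y (x (E C6 β)) = c • (x' (E C6 β') : Lm C6 K)

/-- **YSS** (short-medium). uses: SGR, GEP, UPR, UDC, RKS. As `YST` (`Pool/Agent/helper2/EXC/YST.lean`): the set of the `c u (E β')`, `u ∈ GS ∩ UG`, is stable under the generators `X_i(t)` and `X_{-i}(t)` of `GP = GS`. -/
def YSS_stmt : Prop := ∀ (K : Type) [Field K] (τ : K ≃+* K), (∀ x, τ (τ x) = x) → ∀ g ∈ GS τ, ∀ β, LR β → ∃ u ∈ GS τ, u ∈ UG C6 K ∧ ∃ β', LR β' ∧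
  ∃ c : K, τ c = c ∧ c ≠ 0 ∧ g (E C6 β) = c • (u (E C6 β') : Lm C6 K)

/-- **PCS** (short-medium). uses: RTF, WST, WPS, ESF, YSS. As `PCL` (`Pool/Agent/helper26/EXC/PCL.lean`): all long root vectors are conjugate to `± E th`; `u ∈ UG` fixes `E th` (`f_FPU`). -/
def PCS_stmt : Prop := ∀ (K : Type) [Field K] (τ : K ≃+* K), (∀ x, τ (τ x) = x) → ∀ a b : Lm C6 K, ExS τ a → ExS τ b → ∃ m, -2 ≤ m ∧ m ≤ 2 ∧ TpS τ a b m

/-! ## D. Types, automorphisms -/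

/-- **TFS** (medium). uses: RTF, WST, WPS, ESF, GFX. Facts on types. `TpS` implies `Tp C6 th` (`GS ≤ GE`), so `f_TPF` gives the parts on `b = c a`, `fm`, `m = 1`. Symmetry: WST (the pair `(β, th)` is in the orbit of a pair `(th, β')`), WPS. Commuting on `LT`: `m ≥ 0`: `f_COL`. `m = -1`, `-2`: transport by `k` (`k` induces a permutation of `LT`)
to `c E th`, `c' E β`, and evaluate at `E(-th-β)`, resp. `E(-th)`, which are in `LT` (`TPF`, `Pool/Agent/helper5/EXC/TPF.lean`). -/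
def TFS_stmt : Prop := ∀ (K : Type) [Field K] (τ : K ≃+* K), (∀ x, τ (τ x) = x) → ∀ (a b : Lm C6 K) (m : ℤ), TpS τ a b m →
  ExS τ a ∧ ExS τ b ∧ TpS τ b a m ∧ (∀ k ∈ GS τ, TpS τ (k a) (k b) m) ∧
  (∀ c c' : K, τ c = c → τ c' = c' → c ≠ 0 → c' ≠ 0 → TpS τ (c • a) (c' • b) m) ∧
  (m = 2 ↔ ∃ c : K, b = c • a) ∧ (fm C6 a b ≠ 0 ↔ m = -2) ∧ (m = 1 → ∃ v, fm C6 a v = 0 ∧ b = br C6 a v) ∧
  ((∀ f f' : GF τ, InX τ a (f : Equiv.Perm (LT τ)) → InX τ b (f' : Equiv.Perm (LT τ)) → f * f' = f' * f) ↔ 0 ≤ m)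

/-- **UNF** (short-medium). uses: ESF, GFX, PCS, RTF. An element of a root group determines it (as `UNQ`, `Pool/Agent/helper8/EXC/UNQ.lean`; evaluate at `E(-th) ∈ LT`). -/
def UNF_stmt : Prop := ∀ (K : Type) [Field K] (τ : K ≃+* K), (∀ x, τ (τ x) = x) → ∀ (a b : Lm C6 K) (t : K) (f : Equiv.Perm (LT τ)), ExS τ a → ExS τ b →
  IsF τ a 1 f → IsF τ b t f → a = t • b

/-- **THF** (medium). uses: RTF, ESF, GFX, PCS, UNF, TFS. Third root groups (as `THR`, `Pool/Agent/helper53/EXC/THR.lean`): `m = 1`: `d = E th + E β = x_{th-β}(±1) E β` (`th - β` is a long root). `m = 0`: evaluate at `E(-th)`, `E(-β)`, which are in `LT`. -/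
def THF_stmt : Prop := ∀ (K : Type) [Field K] (τ : K ≃+* K), (∀ x, τ (τ x) = x) → ∀ a b : Lm C6 K,
  (TpS τ a b 1 → ∃ d, ExS τ d ∧ (∀ c : K, d ≠ c • a) ∧ (∀ c : K, d ≠ c • b) ∧ ∀ f, InX τ d f → ∃ f1 f2, InX τ a f1 ∧ InX τ b f2 ∧ f = f1 * f2) ∧
  (TpS τ a b 0 → ∀ d, ExS τ d → (∃ f f1 f2, IsF τ d 1 f ∧ InX τ a f1 ∧ InX τ b f2 ∧ f = f1 * f2) → (∃ c : K, d = c • a) ∨ ∃ c : K, d = c • b)

/-- **IMF** (medium). uses: ESF, GFX, PCS, UNF, THF, TFS. Images of root groups (as `IMX`, `IMT`: `Pool/Agent/helper53/EXC/IMX.lean`, `Pool/Agent/helper20/EXC/IMT.lean`). -/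
def IMF_stmt : Prop := ∀ (K : Type) [Field K] (τ : K ≃+* K), (∀ x, τ (τ x) = x) → ∀ x : MulAut (GF τ), RAF τ x →
  (∀ a a' b, ExS τ a → ExS τ a' → ExS τ b → ImF τ x a b → ImF τ x a' b → ∃ c : K, τ c = c ∧ c ≠ 0 ∧ a' = c • a) ∧
  (∀ a b b', ExS τ a → ExS τ b → ExS τ b' → ImF τ x a b → ImF τ x a b' → ∃ c : K, τ c = c ∧ c ≠ 0 ∧ b' = c • b) ∧
  (∀ (a b : Lm C6 K) (c c' : K), ExS τ a → ExS τ b → τ c = c → τ c' = c' → c ≠ 0 → c' ≠ 0 → ImF τ x a b → ImF τ x (c • a) (c' • b)) ∧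
  ∀ a b a' b', ExS τ a' → ExS τ b' → ImF τ x a a' → ImF τ x b b' → TpS τ a b 1 → TpS τ a' b' 1

/-- **NKF** (medium). uses: RTF, SIG, SGR, ESF, GFX, ACS, LST. An element of `GF` which fixes all long root points is `1`. `c = g|LT`, `g ∈ GS`, `g a = κ a` for all `ExS` vectors `a`. As in `NRM` (`Pool/Agent/helper24/EXC/NRM.lean`) with long roots (`(α,β) = 1`: `E α + E β` is in `ExS`; `g` preserves the bracket): `g E β = E β` for long `β`. For `h ∈ GS` the element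
`h⁻¹ g h` has the same property, so `g` fixes `h (E β)` for all `h ∈ GS`. ACS: `e_η(t)` for a short root `η` is (up to sign of `t`) `X_γ(t) E β - E β - (multiple of a long root vector)` with `η = γ + β`, `(γ,β) = -1`, `β` long, `γ` short; so `g` fixes it. Brackets: `-[E_α, E_{-α}] = h_α`, `-[e_0(t), e_{-0}(1)] = t h_0 + τ(t) h_5` etc. A vector of `LT` is a
sum of `c h_i` (`i = 1, 3`, `c` fixed), `t h_i + τ(t) h_{pn i}` (`i = 0, 2`), `c E β`, `e_γ(t)`; `g` is additive. -/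
def NKF_stmt : Prop := ∀ (K : Type) [Field K] (τ : K ≃+* K), (∀ x, τ (τ x) = x) → ∀ c ∈ GF τ,
  (∀ v : LT τ, ExS τ (v : Lm C6 K) → ∃ κ : K, (c v : Lm C6 K) = κ • (v : Lm C6 K)) → c = 1

/-- **FXF** (short-medium). uses: ESF, GFX, UNF, NKF. As `FIX` (`Pool/Agent/helper60/EXC/FIX.lean`). -/
def FXF_stmt : Prop := ∀ (K : Type) [Field K] (τ : K ≃+* K), (∀ x, τ (τ x) = x) →
  (∀ x : MulAut (GF τ), (∀ a, ExS τ a → ImF τ x a a) → x = 1) ∧ ∀ z : GF τ, (∀ g, z * g = g * z) → z = 1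

/-- **GEF** (medium). uses: RTF, WST, WPS, ESF, GFX, PCS, TFS, UNF, IMF, FXF. `x ≠ 1` moves some long root point far (as `GEO`, `Pool/Agent/helper68/EXC/GEO.lean`; all roots there, `θ`, `β`, `θ - β`, are long; `f_WUQ` for the common neighbour). -/
def GEF_stmt : Prop := ∀ (K : Type) [Field K] (τ : K ≃+* K), (∀ x, τ (τ x) = x) → ∀ x : MulAut (GF τ), RAF τ x → x ≠ 1 →
  ∃ a a' : Lm C6 K, ∃ m : ℤ, ExS τ a ∧ ExS τ a' ∧ ImF τ x a a' ∧ TpS τ a a' m ∧ (m = -2 ∨ m = -1 ∨ m = 0)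

/-- **TOR** (short-medium). uses: SGR. The torus elements. `n(t) = x_α(t) x_{-α}(1/t) x_α(t)`, `h = n(t) n(1)⁻¹` or `n(t) n(-1)` (all in `GS`, `α` long): `h (E γ) = t^(γ,α) E γ`. Computation with `f_ACT` as in `NRF`: `n(t) E γ = E γ` if `(γ,α) = 0`, `= -sg(α,γ)/t · E(γ-α)` or so if `(γ,α) = 1`, `± t E(γ+α)` if `-1`, `E α ↦ t⁻² E(-α)`,
`E(-α) ↦ t² E α` (adjust the exponent by replacing `t` by `1/t`). -/
def TOR_stmt : Prop := ∀ (K : Type) [Field K] (τ : K ≃+* K), (∀ x, τ (τ x) = x) → ∀ α, LR α → ∀ t : K, τ t = t → t ≠ 0 → ∃ h ∈ GS τ,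
  ∀ γ, ip C6 γ γ = 2 → h (E C6 γ) = (t ^ (ip C6 γ α)) • (E C6 γ : Lm C6 K)

/-- **PAR** (short-medium). uses: RTF, WST, WPS, TOR, TFS. Frames with one exact scalar. `k a = c E th`, `k b = c' E β₀`; WST, WPS: `(th, β₀)` to `(β, δ)`; so `g a = c₁ E β`, `g b = c₂ E δ`; TOR with a long root `α`, `(β, α) = 1` (exists), `t = 1/c₁`. -/
def PAR_stmt : Prop := ∀ (K : Type) [Field K] (τ : K ≃+* K), (∀ x, τ (τ x) = x) → ∀ (a b : Lm C6 K) (m : ℤ), TpS τ a b m → ∀ β δ, LR β → LR δ →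
  ip C6 β δ = m → ∃ g ∈ GS τ, ∃ κ : K, τ κ = κ ∧ κ ≠ 0 ∧ g a = E C6 β ∧ g b = κ • (E C6 δ : Lm C6 K)

/-- **PA2** (short). uses: PAR, TFS, PCS, SGR. Opposite pairs with the same form value are conjugate: type `-2` (TFS, PCS), PAR with `β = th`, `δ = -th`; `κ = fm (E th) (κ E(-th)) = fm a b`. -/
def PA2_stmt : Prop := ∀ (K : Type) [Field K] (τ : K ≃+* K), (∀ x, τ (τ x) = x) → ∀ a b a' b' : Lm C6 K, ExS τ a → ExS τ b → ExS τ a' → ExS τ b' →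
  fm C6 a b ≠ 0 → fm C6 a b = fm C6 a' b' → ∃ g ∈ GS τ, g a = a' ∧ g b = b'

/-- **GRQ** (short; groups). As `GRP` (`Pool/Agent/helper18/EXC/GRP.lean`), with any element `Z` of the group generated by the conjugates. -/
def GRQ_stmt : Prop := ∀ (G : Type) [Group G] [Finite G] (x : MulAut G) (t : G) (r k : ℕ) (g : Fin k → G) (Z : G), 1 ≤ k →
  Z ∈ Subgroup.closure (Set.range fun i => g i * (x t * t⁻¹) * (g i)⁻¹) → (∀ m : ℕ, (MulAut.conj Z) ^ m = 1 → r ∣ m) →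
  2 * k ∈ Pool.Agent.GS.CSet r x

/-! ## E. The case `r = p` -/

/-- a singular plane of long root vectors -/
noncomputable def pln {K : Type} [Field K] (c : Fin 3 → K) : Lm C6 K := c 0 • E C6 th + c 1 • E C6 (th - sr 1) + c 2 • E C6 (th - sr 1 - sr 3)

/-- **CLF** (medium). uses: LST, RTF, WST, WPS, SGR, ESF, TFS. The singular plane (as `CL3`, but directly). The three roots are long with mutual products 1. `c 0 ≠ 0`: `pln c = u (c 0 E th)`, `u = x_{-sr 1}(.) x_{-(sr 1+sr 3)}(.)` with fixed parameters; `c 0 = 0`, `c 1 ≠ 0`: `u = x_{-sr 3}(.)`. Independent `c, d`: by `u` as above (and the same with the other two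
coordinates, or with `x_{sr 1}`, `x_{sr 3}`, `x_{sr 1 + sr 3}`) the pair is conjugate to a pair of multiples of two of the three root vectors; these have type 1 (WST, WPS). Additivity: the identity `[a,[b,w]] = fm(a,w) b + fm(b,w) a` for `a, b` in the plane (`f_COL` for the roots, bilinear; `Xtr.sq` for `a = b`), `fm a b = 0`, `[a,b] = 0`; expand. -/
def CLF_stmt : Prop := ∀ (K : Type) [Field K] (τ : K ≃+* K), (∀ x, τ (τ x) = x) →
  (∀ c : Fin 3 → K, (∀ i, τ (c i) = c i) → c ≠ 0 → ExS τ (pln c)) ∧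
  (∀ c d : Fin 3 → K, (∀ i, τ (c i) = c i) → (∀ i, τ (d i) = d i) → LinearIndependent K ![c, d] → TpS τ (pln c) (pln d) 1) ∧
  ∀ (c d : Fin 3 → K) (v : Lm C6 K), xe C6 (pln c) 1 (xe C6 (pln d) 1 v) = xe C6 (pln (c + d)) 1 v

/-- **PLF** (medium). uses: CLF, IMF, TFS, PCS, UNF, ESF, GFX, SIG. Not all points go to opposite points (as `PLN`, `Pool/Agent/helper21/EXC/PLN.lean`). `f_COR` with the field `F` of fixed elements of `K` (a subfield; `RingHom.eqLocusField` or the like), `W` the `F`-module of the vectors `v` with `σ v = v`, `B c w = fm (pln c) w`. -/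
def PLF_stmt : Prop := ∀ (K : Type) [Field K] [Finite K] (τ : K ≃+* K), (∀ x, τ (τ x) = x) → ∀ x : MulAut (GF τ), RAF τ x →
  ∃ a a' : Lm C6 K, ∃ m : ℤ, ExS τ a ∧ ExS τ a' ∧ ImF τ x a a' ∧ TpS τ a a' m ∧ m ≠ -2

/-- **CNF** (medium). uses: LST, RTF, WST, WPS, SGR, ESF, TFS, ACS, GEP. Connectedness (as `CNN`, `Pool/Agent/helper61/EXC/CNN.lean`): the long root vectors are connected by steps of type 1 (`D₄`); for a generator `g = x_β'(t)` or `X_γ(t)` of `GS` every long `E β` is connected with some long `E δ` fixed by `g` (`(γ, δ) ≥ 0`), so `g E β` with `g E δ = E δ`. -/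
def CNF_stmt : Prop := ∀ (K : Type) [Field K] (τ : K ≃+* K), (∀ x, τ (τ x) = x) → ∀ P : Lm C6 K → Prop,
  (∀ a (c : K), τ c = c → c ≠ 0 → P a → P (c • a)) → (∀ a b, TpS τ a b 1 → P a → P b) → (∃ a, ExS τ a ∧ P a) → ∀ b, ExS τ b → P b

/-- **RPF** (medium). uses: PLF, CNF, IMF, TFS, PCS, FXF, ESF, GFX, UNF, SGR. As `RPX` (`Pool/Agent/helper39/EXC/RPX.lean`). -/
def RPF_stmt : Prop := ∀ (K : Type) [Field K] [Finite K] (τ : K ≃+* K), (∀ x, τ (τ x) = x) → ∀ x : MulAut (GF τ), RAF τ x → x ≠ 1 →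
  ∃ a a' : Lm C6 K, ∃ m : ℤ, ExS τ a ∧ ExS τ a' ∧ ImF τ x a a' ∧ TpS τ a a' m ∧ m ≠ -2 ∧ ∃ f : GF τ, InX τ a (f : Equiv.Perm (LT τ)) ∧ x f ≠ f

/-- **PEF** (short-medium). uses: SGR, TFS. `TpS` implies `Tp C6 th` and the elements of `GF` lift to `x_a(s)`, `x_b(t)` in `GE`; `f_PEL`. -/
def PEF_stmt : Prop := ∀ (K : Type) [Field K] (τ : K ≃+* K), (∀ x, τ (τ x) = x) → ∀ p : ℕ, p.Prime → CharP K p → ∀ (a b : Lm C6 K) (m : ℤ),
  TpS τ a b m → m ≠ -2 → ∀ f f' : GF τ, InX τ a (f : Equiv.Perm (LT τ)) → InX τ b (f' : Equiv.Perm (LT τ)) → (f' * f) ^ (p ^ 2) = 1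

/-- **BPF** (short-medium). uses: RPF, PEF, FXF, GFX, GRQ. `r = p`: `β ≤ 2` (as `BPW`, `Pool/Agent/helper80/EXC/BPW.lean`). -/
def BPF_stmt : Prop := ∀ (K : Type) [Field K] [Finite K] (τ : K ≃+* K), (∀ x, τ (τ x) = x) → ∀ x : MulAut (GF τ), RAF τ x → x ≠ 1 →
  ∀ p : ℕ, p.Prime → CharP K p → 2 ∈ Pool.Agent.GS.CSet p x

/-! ## F. Automorphisms permute the long root subgroups -/

/-- **FPT** (short-medium). uses: RTF, SGR, ESF, YSS, ACS. `⟨E th⟩` is the only long root point fixed by `GS ∩ UG` (as `FPU`, `Pool/Agent/helper42/EXC/FPU.lean`). `f_DMN`: for `β` long, `β ≠ th`, there is `i` with `(β, sr i) = -1` or `β = -sr i`; the element `X_i(1)` does not fix `⟨E β⟩`. -/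
def FPT_stmt : Prop := ∀ (K : Type) [Field K] (τ : K ≃+* K), (∀ x, τ (τ x) = x) → ∀ a : Lm C6 K, ExS τ a →
  (∀ u ∈ GS τ, u ∈ UG C6 K → ∃ κ : K, u a = κ • a) → ∃ c : K, τ c = c ∧ a = c • E C6 th

/-- **SYT** (medium). uses: RTF, SGR, ESF, GFX, FPT. A `p`-subgroup of `GF` which contains the image of `GS ∩ UG` fixes `E th` (as `SYL`, `Pool/Agent/helper45/EXC/SYL.lean`; points: the sets `{c • a : c fixed, c ≠ 0}`, `a` in `ExS`; `f_UPG`). -/
def SYT_stmt : Prop := ∀ (K : Type) [Field K] [Finite K] (τ : K ≃+* K), (∀ x, τ (τ x) = x) → ∀ p : ℕ, p.Prime → CharP K p →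
  ∀ P : Subgroup (GF τ), IsPGroup p P → (∀ f : GF τ, (∃ u ∈ GS τ, u ∈ UG C6 K ∧ ∀ v : LT τ, ((f : Equiv.Perm (LT τ)) v : Lm C6 K) = u v) → f ∈ P) →
  ∀ f ∈ P, ∀ v : LT τ, (v : Lm C6 K) = E C6 th → (f : Equiv.Perm (LT τ)) v = v

/-- **GMT** (medium). uses: LST, RTF, SIG, SGR, GFX, ACS. `g ∈ GS` which fixes `E β` for the positive long roots `β` and `E(-th)`, and commutes on `LT` with `X_γ(t)` for all positive short `γ`, is the identity on `LT`. (1) `E(-β)`, `β` positive long: downward induction in the root system of the long roots (`β ≠ th`: there is a positive long root `δ` with `(β, δ) = -1`,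
`E(-β) = ± [E δ, E(-(β+δ))]`; a finite check with `LST`). (2) `e_η(t)` for short `η`: `η = γ + β`, `γ` positive short, `β` long, `(γ,β) = -1` (finite check): `X_γ(t) E β - E β -` (multiple of a long root vector). (3) `h`-part by brackets; as in NKF every vector of `LT` is a sum of such vectors. -/
def GMT_stmt : Prop := ∀ (K : Type) [Field K] (τ : K ≃+* K), (∀ x, τ (τ x) = x) → ∀ g ∈ GS τ,
  (∀ β, LR β → Pos β → g (E C6 β) = (E C6 β : Lm C6 K)) → g (E C6 (-th)) = (E C6 (-th) : Lm C6 K) →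
  (∀ γ, SR γ → Pos γ → ∀ (t : K) (h : Lm C6 K ≃ₗ[K] Lm C6 K), IsS τ γ t h → ∀ v ∈ LT τ, g (h v) = h (g v)) → ∀ v ∈ LT τ, g v = v

/-- **CUT** (medium). uses: LST, RTF, SIG, SGR, ESF, GFX, ACS, UNF, YSS. `g ∈ GS` commutes on `LT` with `GS ∩ UG`. `g E β = E β` for `β` positive long (UNF); `g E(-th) = u E(-th)` with `u ∈ GS ∩ UG` (YSS; as `CUB`, `Pool/Agent/helper89/EXC/CUB.lean`); `b = g E(-th)`: `fm (E β) b = 0` for `β` positive long, `β ≠ th`. Short `η` positive with `(η, th) = 1`: `η = γ + β` with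
`γ` positive short, `β` positive long, `(γ,β) = -1` (finite check), so `g e_η(t) = e_η(t)` (as in GMT (2)) and `fm (e_η(t)) b = fm (e_η(t)) (E(-th)) = 0`. With `y = fm (E η) b` (and `fm (E πη) b = sn η τ(y)` as `σ b = b`): `t y + τ(t y) = 0` for all `t`; so `y = 0` if `τ ≠ 1` or `2 ≠ 0`. -/
def CUT_stmt : Prop := ∀ (K : Type) [Field K] (τ : K ≃+* K), (∀ x, τ (τ x) = x) → ((∃ x, τ x ≠ x) ∨ (2 : K) ≠ 0) → ∀ g ∈ GS τ,
  (∀ u ∈ GS τ, u ∈ UG C6 K → ∀ v ∈ LT τ, g (u v) = u (g v)) →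
  (∀ β, LR β → Pos β → g (E C6 β) = (E C6 β : Lm C6 K)) ∧ (∃ u ∈ UG C6 K, g (E C6 (-th)) = (u (E C6 (-th)) : Lm C6 K)) ∧
  ∀ η, ip C6 η η = 2 → ip C6 η th = 1 → fm C6 (E C6 η) (g (E C6 (-th))) = 0

/-- **CXT** (short-medium). uses: RTF, SIG, SGR, CUT, GMT. The centraliser of `GS ∩ UG` in `GF` is `X_th`. `b = g E(-th) = u E(-th) = q E(-th)`, `q ∈ UQ C6 K th` (`f_QUN`); `f_QNF` (the coefficients vanish by CUT, `th - γ` is a root with product 1) gives `IsX (E th) t q`; `σ b = b` gives `τ t = t`; `q⁻¹ g` satisfies the hypotheses of GMT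
(`x_th(t)` fixes `E β`, commutes with `X_γ`, `γ` positive, by `f_COL`). -/
def CXT_stmt : Prop := ∀ (K : Type) [Field K] (τ : K ≃+* K), (∀ x, τ (τ x) = x) → ((∃ x, τ x ≠ x) ∨ (2 : K) ≠ 0) → ∀ g ∈ GS τ,
  (∀ u ∈ GS τ, u ∈ UG C6 K → ∀ v ∈ LT τ, g (u v) = u (g v)) → ∃ t : K, τ t = t ∧ ∀ v ∈ LT τ, g v = xe C6 (E C6 th) t v

/-- **ARF** (medium). uses: WST, WPS, SGR, ESF, GFX, SYT, CXT, RTF. Every automorphism permutes the long root subgroups (as `ARA`, `Pool/Agent/helper6/EXC/ARA.lean`). -/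
def ARF_stmt : Prop := ∀ (K : Type) [Field K] [Finite K] (τ : K ≃+* K), (∀ x, τ (τ x) = x) → ((∃ x, τ x ≠ x) ∨ (2 : K) ≠ 0) →
  ∀ x : MulAut (GF τ), RAF τ x

end Pool.Agent.EXT
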