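import Pool.Agent.helper53.EXT.SpecB

/-!
# Project EXT (MP_561ff4_al), BLOCK J: ALL automorphisms of `F₄(2^f)`

RULES. Row `XXX`: file `Pool/Agent/<seat>/EXT/XXX.lean`, `import Pool.Agent.helper17.EXT.SpecJ`, `set_option autoImplicit false`,
`open Finset`, `namespace Pool.Agent.EXT`, `open Pool.Agent.EXC`, theorem line exactly as in the lock note (other rows only as hypotheses),
auxiliary lemmas prefixed `XXX_`. No straight double quotes, no convert / congr!. Land, note DONE + path, one line to helper17.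
All rows of project EXC are available as theorems `f_XXX` (`f_EXF`, `f_ACT`, `f_COL`, `f_XAU`, `f_UPG`, `f_QUN`, `f_QNF`, ...; statements in
`Pool/Agent/helper17/EXC/Spec.lean`, `SpecRA.lean`; `f_DE6.2 : IsE CartanMatrix.E₆ 1 th ![0, 2, 3, 4, 5]`).
The `ft:` rows (`Pool/Agent/helper17/EXT/Spec.lean`) and `ftb:` rows (`Pool/Agent/helper53/EXT/SpecB.lean`) are hypotheses.

SETTING. `K` has characteristic 2 (`(2 : K) = 0`), `τ = RingEquiv.refl K`, `GF τ = F₄(K)`. All signs are `1` in `K` (`(sn γ : K) = 1`,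
`(sg C6 α β : K) = 1`: an integer `± 1`). A short root `γ` and `πγ = pv γ` give the same element `X_γ(t) = x_γ(t) x_{πγ}(t)` (an `h` with `IsS τ γ t h`). `η = eta` and `πη` are the
highest short root. All finite facts were checked by computer (also the group facts over `F₂`).
-/

set_option autoImplicit false

open Finset

namespace Pool.Agent.EXT

open Pool.Agent.EXC

/-- the highest short root -/
def eta : Fin 6 → ℤ := ![1, 1, 2, 2, 1, 1]

/-- the next short root -/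
def et2 : Fin 6 → ℤ := ![1, 1, 2, 2, 1, 0]

/-- `f` is in the short root subgroup `h X_γ h⁻¹` -/
def InH {K : Type} [Field K] (h : Lm C6 K ≃ₗ[K] Lm C6 K) (γ : Fin 6 → ℤ) (f : Equiv.Perm (LT (RingEquiv.refl K))) : Prop :=
  ∃ (t : K) (g : Lm C6 K ≃ₗ[K] Lm C6 K), IsS (RingEquiv.refl K) γ t g ∧ ∀ v : LT (RingEquiv.refl K), (f v : Lm C6 K) = h (g (h⁻¹ (v : Lm C6 K)))

/-- `f` is induced by an element of `GS ∩ UG` -/
def InU {K : Type} [Field K] (f : Equiv.Perm (LT (RingEquiv.refl K))) : Prop :=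
  ∃ u ∈ GS (RingEquiv.refl K), u ∈ UG C6 K ∧ ∀ v : LT (RingEquiv.refl K), (f v : Lm C6 K) = u (v : Lm C6 K)

/-- `f` is in `X_θ X_{θ - α₁}` -/
def InA {K : Type} [Field K] (f : Equiv.Perm (LT (RingEquiv.refl K))) : Prop :=
  ∃ f1 f2 : Equiv.Perm (LT (RingEquiv.refl K)), InX (RingEquiv.refl K) (E C6 th) f1 ∧ InX (RingEquiv.refl K) (E C6 (th - sr 1)) f2 ∧ f = f1 * f2

/-- `f` is in `X_η X_{η - α₄}` -/
def InB {K : Type} [Field K] (f : Equiv.Perm (LT (RingEquiv.refl K))) : Prop :=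
  ∃ f1 f2 : Equiv.Perm (LT (RingEquiv.refl K)), InH 1 eta f1 ∧ InH 1 et2 f2 ∧ f = f1 * f2

/-- `x` maps every long root subgroup onto a short root subgroup -/
def SwF {K : Type} [Field K] (x : MulAut (GF (RingEquiv.refl K))) : Prop := ∀ a, ExS (RingEquiv.refl K) a → ∃ h ∈ GS (RingEquiv.refl K), ∃ γ, SR γ ∧
  ∀ f : GF (RingEquiv.refl K), InX (RingEquiv.refl K) a (f : Equiv.Perm (LT (RingEquiv.refl K))) ↔
    InH h γ ((x f : GF (RingEquiv.refl K)) : Equiv.Perm (LT (RingEquiv.refl K)))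

/-! ## A. Short root elements -/

/-- **JCM** (medium). uses: LST, RTF, SGR. Commuting. Second part: `f_COL` for `(γ, β)` and `(πγ, β)` (`ip (pv γ) β = ip γ β`, RTF). First part: if `ip γ δ`, `ip γ (pv δ)` are both `≥ 0` all four pairs commute (`f_COL`; RTF). Otherwise (finite check over `RL`, LST, `decide +kernel`) one of them is `-1`, the other `1`;
replace `δ` by `πδ` (SGR: the same element) so that `ip γ δ = -1`, `ip γ (pv δ) = 1`; `lam = γ + δ` is a root fixed by the symmetry (finite check). `h E_γ = E_γ + t E_lam`, `h E_πγ = E_πγ + t E_lam` (`f_ACT`), so `h g h⁻¹ = x_{E_γ + t E_lam}(s) x_{E_πγ + t E_lam}(s) = x_γ(s) x_lam(st) x_πγ(s) x_lam(st) = g x_lam(2st) = g`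
(`f_XAU`, `f_EXF`: `h (xe a s v) = xe (h a) s (h v)`; `f_COL`: `(γ, lam) = 1`, `(πγ, lam) = 1`). -/
def JCM_stmt : Prop := ∀ (K : Type) [Field K], (2 : K) = 0 →
  (∀ γ δ, SR γ → SR δ → 0 ≤ ip C6 γ δ + ip C6 γ (pv δ) → ∀ (s t : K) (g h : Lm C6 K ≃ₗ[K] Lm C6 K),
    IsS (RingEquiv.refl K) γ s g → IsS (RingEquiv.refl K) δ t h → g * h = h * g) ∧
  ∀ γ β, SR γ → LR β → 0 ≤ ip C6 γ β → ∀ (s t : K) (g h : Lm C6 K ≃ₗ[K] Lm C6 K),
    IsS (RingEquiv.refl K) γ s g → IsX C6 (E C6 β) t h → g * h = h * g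

/-- **JSH** (short-medium). uses: LST, RTF, SGR, GFX, ACS. Facts on short root subgroups. Existence: SGR (`g ∈ GS`), `h g h⁻¹ ∈ GS`, GFX. Products: SGR (third part). `f * f = 1`: the parameter is `2 t = 0`. `h⁻¹ v ∈ LT` for `v ∈ LT` (SGR: commutes with `si`). Injectivity: a long root `β` with `ip γ β = -1` (finite check), ACS:
the coefficient of `g (E β)` at `γ + β` is `t` (`γ + β` is different from `β`, `πγ + β`, `γ + πγ + β`). `X_γ = X_πγ`: SGR (fourth part). -/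
def JSH_stmt : Prop := ∀ (K : Type) [Field K], (2 : K) = 0 → ∀ h ∈ GS (RingEquiv.refl K), ∀ γ, SR γ →
  (∀ t : K, ∃ f ∈ GF (RingEquiv.refl K), ∃ g ∈ GS (RingEquiv.refl K), IsS (RingEquiv.refl K) γ t g ∧ ∀ v : LT (RingEquiv.refl K), (f v : Lm C6 K) = h (g (h⁻¹ (v : Lm C6 K)))) ∧
  (∀ f, InH h γ f → f ∈ GF (RingEquiv.refl K)) ∧ (∀ f f', InH h γ f → InH h γ f' → InH h γ (f * f')) ∧ (∀ f, InH h γ f → f * f = 1) ∧
  (∀ f, InH h γ f → ∀ f₀ ∈ GF (RingEquiv.refl K), ∀ k ∈ GS (RingEquiv.refl K), (∀ v : LT (RingEquiv.refl K), (f₀ v : Lm C6 K) = k (v : Lm C6 K)) →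
    InH (k * h) γ (f₀ * f * f₀⁻¹)) ∧
  (∀ f, InH h γ f ↔ InH h (pv γ) f) ∧
  ∀ (s t : K) (g g' : Lm C6 K ≃ₗ[K] Lm C6 K), IsS (RingEquiv.refl K) γ s g → IsS (RingEquiv.refl K) γ t g' → (∀ v ∈ LT (RingEquiv.refl K), g v = g' v) → s = t

/-! ## B. The centraliser of the unipotent group -/

/-- **JCU** (medium). uses: LST, RTF, SIG, SGR, ESF, GFX, ACS, UNF, YSS. As `CUT` (`Pool/Agent/helper36/EXT/CUT.lean`) in characteristic 2. `g E β = E β` for `β` positive long (UNF). `b := g E(-th) = u E(-th)`, `u ∈ GS ∩ UG` (YSS, as there). `η'` long with `(η', th) = 1`: `fm (E η') b = fm (g E η') (g E(-th)) = 0`.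
`η'` short with `(η', th) = 1`, `η' ≠ th - eta, th - pv eta`: (finite check) there is `i ≠ 1` such that `ε = η' - sr i` is a root, `ip ε (sr i) = -1` and (`pn i = i` or `ip ε (sr (pn i)) = 0`). Let `w = X_i(1) ∈ GS ∩ UG` (`x_{sr i}(1)`, resp. `X_{sr i}(1)`): `w E(-th) = E(-th)`, so `w b = w g E(-th) = g w E(-th) = b`;
`w E ε = E ε + E η'`, so `fm (E ε) b = fm (w E ε) (w b) = fm (E ε) b + fm (E η') b`. The last part: `σ b = b`, `fm (E (pv ζ)) b = fm (si (E ζ)) (si b) = fm (E ζ) b` (SIG). -/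
def JCU_stmt : Prop := ∀ (K : Type) [Field K], (2 : K) = 0 → ∀ g ∈ GS (RingEquiv.refl K),
  (∀ u ∈ GS (RingEquiv.refl K), u ∈ UG C6 K → ∀ v ∈ LT (RingEquiv.refl K), g (u v) = u (g v)) →
  (∀ β, LR β → Pos β → g (E C6 β) = (E C6 β : Lm C6 K)) ∧ (∃ u ∈ UG C6 K, g (E C6 (-th)) = (u (E C6 (-th)) : Lm C6 K)) ∧
  (∀ ε, ip C6 ε ε = 2 → ip C6 ε th = 1 → ε ≠ th - eta → ε ≠ th - pv eta → fm C6 (E C6 ε) (g (E C6 (-th))) = 0) ∧
  fm C6 (E C6 (th - eta)) (g (E C6 (-th))) = fm C6 (E C6 (th - pv eta)) (g (E C6 (-th)))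

/-- **JCX** (medium). uses: LST, RTF, SIG, SGR, JCM, JCU, GMT, ACS. The centraliser of `GS ∩ UG` is `X_th X_eta` (as `CXT`, `Pool/Agent/helper6/EXT/CXT.lean`). `b = g E(-th)`, `y = fm (E (th - eta)) b`, `X = X_eta(y)`, `g'' = X * g`. `X E β = E β` for `β` positive long (`(eta, β) ≥ 0`, finite check), so `g'' E β = E β`. `g'' E(-th) = X u E(-th)`, `X u ∈ UG`.
For a root `ε` with `(ε, th) = 1`: `fm (E ε) (g'' E(-th)) = fm (X E ε) b` (`X² = 1`); `X E ε = E ε` if `ε ≠ th - eta, th - pv eta` (`(eta, ε) = -1` means `eta + ε = th`), and `X E ε = E ε + y E th` for these two; `fm (E th) b = fm (g E th) (g E(-th)) = 1`. So all these values are `0` (`2 y = 0`). Now as in CXT: `g'' E(-th) = q E(-th)`, `q ∈ UQ` (`f_QUN`), `q = x_th(t)` (`f_QNF`),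
`q⁻¹ g''` satisfies the hypotheses of GMT (it commutes on `LT` with `X_γ(s)`, `γ` positive short: `g` by hypothesis, `X` by JCM (`0 ≤ ip eta γ + ip eta (pv γ)`, finite check), `q` by JCM second part). So `g = X q = q X` on `LT`. -/
def JCX_stmt : Prop := ∀ (K : Type) [Field K], (2 : K) = 0 → ∀ g ∈ GS (RingEquiv.refl K),
  (∀ u ∈ GS (RingEquiv.refl K), u ∈ UG C6 K → ∀ v ∈ LT (RingEquiv.refl K), g (u v) = u (g v)) →
  ∃ (t y : K) (g' : Lm C6 K ≃ₗ[K] Lm C6 K), IsS (RingEquiv.refl K) eta y g' ∧ ∀ v ∈ LT (RingEquiv.refl K), g v = xe C6 (E C6 th) t (g' v)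

/-! ## C. The quadratic form `fm v (f v)` -/

/-- **JQA** (medium). uses: LST, RTF, SIG, SGR. Additivity. `f * f = 1`, `f` induced by `g ∈ GS` (so `fm` is invariant): `fm v (f w) + fm w (f v) = fm v (f w) + fm (f w) (f (f v)) = 2 fm v (f w) = 0`. So `v ↦ fm v (f v)` and `v ↦ (t fm (E th) v)²` are additive and multiply by `c²` if `v` is replaced by `c v`. Every vector of `LT` is a sum of `c E β` (`β` long),
`c (E δ + E (pv δ))` (`δ` short) and a vector `(h, 0)` of `LT`. For `v = E δ + E (pv δ)` and any `w ∈ LT`: `fm v w = 2 (..) = 0` (the coefficients of `w` at `-δ` and `-pv δ` are equal), and `fm (E th) v = 0`. -/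
def JQA_stmt : Prop := ∀ (K : Type) [Field K], (2 : K) = 0 → ∀ g ∈ GS (RingEquiv.refl K), (∀ v ∈ LT (RingEquiv.refl K), g (g v) = v) → ∀ t : K,
  (∀ β, LR β → fm C6 (E C6 β) (g (E C6 β)) = t ^ 2 * fm C6 (E C6 th) (E C6 β) ^ 2) →
  (∀ h : Fin 6 → K, ((h, 0) : Lm C6 K) ∈ LT (RingEquiv.refl K) → fm C6 ((h, 0) : Lm C6 K) (g (h, 0)) = 0) →
  ∀ v ∈ LT (RingEquiv.refl K), fm C6 v (g v) = t ^ 2 * fm C6 (E C6 th) v ^ 2

/-- **JQF** (medium). uses: LST, RTF, SGR, ESF, ACS, JCM, JQA. (1) `fm v v = 0` in characteristic 2 (coordinates; or additivity and the basis), `fm v [a, v] = -fm [v, v] a = 0` (`f_INV`, `f_EXF`), so `fm v (xe a t v) = t² (fm a v)²` for every `v`. (2) `h = 1` first: JQA with `t = 0`, `g = X_γ(y)`: `fm (E β) (g E β)`: `g E β` has coefficients at `β`, `γ + β`, `πγ + β`,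
`γ + πγ + β` (ACS) and `-β` is none of these (norms: `2β` is not `-γ`, `-πγ`, `-(γ + πγ)`; `(γ + πγ, γ + πγ) = 4`); `g (h, 0) = (h, 0) +` root vectors (`f_ACT`) and `fm (h, 0) (h, 0) = 0`. Then `fm v (h g h⁻¹ v) = fm (h⁻¹ v) (g (h⁻¹ v))`. (3) JQA with `g = x_th(t) X_eta(y)` (the factors commute, both square to `1`): for `β = -th` the coefficient of `g E(-th)` at `th` is `t²`
(only from the quadratic term of `x_th(t)`), for `β ≠ -th` the coefficient at `-β` is `0`: `-2β` is not a sum of one of `0, eta, pv eta, eta + pv eta` and one of `0, th` (norms 0, 2, 2, 4, 2, 6, 6, 10; finite check). `g (h, 0) = (h, 0) +` multiples of `E eta`, `E (pv eta)`, `E th`. -/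
def JQF_stmt : Prop := ∀ (K : Type) [Field K], (2 : K) = 0 →
  (∀ (a : Lm C6 K) (t : K) (f : Equiv.Perm (LT (RingEquiv.refl K))), ExS (RingEquiv.refl K) a → IsF (RingEquiv.refl K) a t f →
    ∀ v : LT (RingEquiv.refl K), fm C6 (v : Lm C6 K) (f v) = t ^ 2 * fm C6 a (v : Lm C6 K) ^ 2) ∧
  (∀ h ∈ GS (RingEquiv.refl K), ∀ γ, SR γ → ∀ f, InH h γ f → ∀ v : LT (RingEquiv.refl K), fm C6 (v : Lm C6 K) (f v) = 0) ∧
  ∀ (t : K) (f1 f2 : Equiv.Perm (LT (RingEquiv.refl K))), IsF (RingEquiv.refl K) (E C6 th) t f1 → InH 1 eta f2 →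
    ∀ v : LT (RingEquiv.refl K), fm C6 (v : Lm C6 K) ((f1 * f2) v) = t ^ 2 * fm C6 (E C6 th) (v : Lm C6 K) ^ 2

/-- **JLS** (short-medium). uses: JQF, PCS, ESF, SGR, RTF. (1) JQF: `t² (fm a v)² = 0` for all `v ∈ LT`; `a = c g (E β)`, `v = g (E (-β)) ∈ LT`, `fm a v = c`. (2) PCS: `k a = c E th`, `k a' = c' E β`; `v = k⁻¹ (E (-th)) ∈ LT`: `t² c² = t'² c'² (fm (E β) (E (-th)))²`, so `β = th` and `(t c - t' c')² = 0`. -/
def JLS_stmt : Prop := ∀ (K : Type) [Field K], (2 : K) = 0 →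
  (∀ (a : Lm C6 K) (t : K) (f : Equiv.Perm (LT (RingEquiv.refl K))), ExS (RingEquiv.refl K) a → IsF (RingEquiv.refl K) a t f →
    ∀ h ∈ GS (RingEquiv.refl K), ∀ γ, SR γ → InH h γ f → t = 0) ∧
  ∀ (a a' : Lm C6 K) (t t' : K), ExS (RingEquiv.refl K) a → ExS (RingEquiv.refl K) a' → t ≠ 0 →
    (∀ v ∈ LT (RingEquiv.refl K), t ^ 2 * fm C6 a v ^ 2 = t' ^ 2 * fm C6 a' v ^ 2) → t • a = t' • a'

/-- **JCZ** (medium). uses: RTF, SGR, ESF, GFX, JQF, JLS, JCM, ACS. A mixed element `f = f1 f2` has a smaller centraliser than `f1`. If `g f g⁻¹ = f` (`g` induced by `k ∈ GS`): `fm v (f v) = fm (g v) (f (g v))`, JQF (3): `t² fm (E th) v ² = t² fm (k⁻¹ E th) v ²`, JLS (2): `E th = k⁻¹ E th`; so `g` commutes with `f1` (GFX: `g f1 g⁻¹` is `x_{k E th}(t)`).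
So the centraliser of `f` is in that of `f1`. It is smaller: `g` induced by `X_{-sr 0}(1)` commutes with `f1` (JCM: `(-sr 0, th) = 0`); if it commutes with `f` then with `f2 = X_eta(y)`, `y ≠ 0`: evaluate at `E(-th)`: `X_eta(y) E(-th) = E(-th) + y E(eta - th) + y E(pv eta - th) + y² E(eta + pv eta - th)` (ACS), `X_{-sr 0}(1) E(-th) = E(-th)`, and the coefficient of
`X_{-sr 0}(1) X_eta(y) E(-th)` at `eta - th - sr 5` is `y` (`(sr 5, eta - th) = 1`), that of `X_eta(y) E(-th)` is `0`. -/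
def JCZ_stmt : Prop := ∀ (K : Type) [Field K] [Finite K], (2 : K) = 0 → ∀ f1 f2 : GF (RingEquiv.refl K), ∀ t : K, t ≠ 0 →
  IsF (RingEquiv.refl K) (E C6 th) t (f1 : Equiv.Perm (LT (RingEquiv.refl K))) → InH 1 eta (f2 : Equiv.Perm (LT (RingEquiv.refl K))) → f2 ≠ 1 →
  Nat.card {g : GF (RingEquiv.refl K) // g * (f1 * f2) = f1 * f2 * g} < Nat.card {g : GF (RingEquiv.refl K) // g * f1 = f1 * g}

/-! ## D. Automorphisms -/

/-- **JAU** (medium). uses: WST, WPS, SGR, ESF, GFX, SYT, TOR, RTF, JCX, JCZ, JSH. As `ARF` (`Pool/Agent/*/EXT/ARF.lean`). `U = {f ∈ GF : InU f}` is a 2-group (`f_UPG`), `P ≥ U` a Sylow 2-subgroup; `x(P)` is conjugate to `P`: with some `c ∈ GF`, `x' = conj c * x` maps `P` onto `P`. `P` fixes `E th` (SYT), so it commutes with `X_th ≤ U`.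
For `s ≠ 0`, `f ∈ GF` with `IsF (E th) s f`: `z = x' f` commutes with `P ≥ U`, so by JCX `z = f1 f2`, `IsF (E th) t f1`, `InH 1 eta f2` (JSH: both in `GF`). If `t ≠ 0` and `f2 ≠ 1`: the centraliser of `z` has the same order as that of `f` (automorphism `x'`) and `f1` is conjugate to `f` (TOR with `α = th`: `h E th = r² E th`, every element of `K` is a square), so this contradicts JCZ.
So `x' f ∈ X_th` or `x' f ∈ X_eta` for each `s`; the two sets of parameters `s` are additive subgroups with union `K`, so one of them is `K` (a group is not the union of two proper subgroups). `x'` is injective and `X_th`, `X_eta` have `|K|` elements (GFX, JSH), so `x' X_th = X_th` or `= X_eta`. Every `a` in `ExS` is `c k (E th)` (WST, WPS), `X_a = f_k X_th f_k⁻¹`,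
`x X_a = x(f_k) c⁻¹ (x' X_th) (x(f_k) c⁻¹)⁻¹`: the first case gives RAF, the second SwF. -/
def JAU_stmt : Prop := ∀ (K : Type) [Field K] [Finite K], (2 : K) = 0 → ∀ x : MulAut (GF (RingEquiv.refl K)), RAF (RingEquiv.refl K) x ∨ SwF x

/-- **JSW** (medium). uses: WST, WPS, SGR, ESF, GFX, JLS, JSH, JAU. (1) `x` with both: `f` with `IsF a 1 f`, `x f ∈ X_b` and in a short root subgroup: `x f = 1` (JLS), `f = 1`, contradiction (GFX). (2) JAU for `x⁻¹`: if `RAF x⁻¹`: `x⁻¹ X_a = X_b`, `x X_b = X_a`, but `x X_b` is a short root subgroup, contradiction as in (1). So `SwF x⁻¹`: `x⁻¹ X_a = h X_γ h⁻¹`.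
All short root subgroups are conjugate (WST, WPS: `g (E γ) = ± E (sr 0)`, `g` commutes with `si`), so `x` maps every short root subgroup onto a long one (conjugate with `x(..)`), and `x * x` maps long to short to long. (3) compose. -/
def JSW_stmt : Prop := ∀ (K : Type) [Field K] [Finite K], (2 : K) = 0 → ∀ x : MulAut (GF (RingEquiv.refl K)), SwF x →
  ¬ RAF (RingEquiv.refl K) x ∧ RAF (RingEquiv.refl K) (x * x) ∧ ∀ y : MulAut (GF (RingEquiv.refl K)), RAF (RingEquiv.refl K) y → SwF (x * y)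

/-- **JSY** (short-medium). uses: SGR, GFX. `⟨x⟩` is a 2-group acting on the Sylow 2-subgroups of `GF` (finite, odd number: `card_sylow_modEq_one`; `MulAut` acts by `Sylow.pointwiseMulAction` or define the action by hand), so it fixes one, `Q` (`IsPGroup.card_modEq_card_fixedPoints` or `IsPGroup.nonempty_fixed_point_of_prime_not_dvd_card`). `U = {f : InU f}` is a 2-group (`f_UPG`),
so `U ≤ c Q c⁻¹ =: P` for some `c` (`IsPGroup.exists_le_sylow`, Sylow subgroups are conjugate). -/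
def JSY_stmt : Prop := ∀ (K : Type) [Field K] [Finite K], (2 : K) = 0 → ∀ x : MulAut (GF (RingEquiv.refl K)), x * x = 1 →
  ∃ (c : GF (RingEquiv.refl K)) (P : Subgroup (GF (RingEquiv.refl K))), IsPGroup 2 P ∧
    (∀ f : GF (RingEquiv.refl K), InU (f : Equiv.Perm (LT (RingEquiv.refl K))) → f ∈ P) ∧ ∀ f ∈ P, (MulAut.conj c * x * (MulAut.conj c)⁻¹) f ∈ P

/-- **JXT** (medium). uses: RTF, SGR, ESF, GFX, SYT, JCX, JQF, JLS, JSH. `f ∈ X_th ≤ U ≤ P` commutes with `P` (SYT, GFX), so `x f` commutes with `x(P) = P ≥ U` (`x (x f) = f`), JCX: `x f = f1 f2`; `x f` is in a short root subgroup (SwF), so `fm v (x f v) = 0`, and `t² fm (E th) v ² = 0` (JQF (3)), `v = E(-th)`: `t = 0`, so `x f = f2 ∈ X_eta`. Conversely: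
`x` maps `X_th` injectively into `X_eta`, both have `|K|` elements, so onto; if `x f ∈ X_eta` then `x f = x f'`, `f' ∈ X_th`. -/
def JXT_stmt : Prop := ∀ (K : Type) [Field K] [Finite K], (2 : K) = 0 → ∀ x : MulAut (GF (RingEquiv.refl K)), x * x = 1 → SwF x →
  ∀ P : Subgroup (GF (RingEquiv.refl K)), IsPGroup 2 P → (∀ f : GF (RingEquiv.refl K), InU (f : Equiv.Perm (LT (RingEquiv.refl K))) → f ∈ P) → (∀ f ∈ P, x f ∈ P) →
  ∀ f : GF (RingEquiv.refl K), InX (RingEquiv.refl K) (E C6 th) (f : Equiv.Perm (LT (RingEquiv.refl K))) ↔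
    InH 1 eta ((x f : GF (RingEquiv.refl K)) : Equiv.Perm (LT (RingEquiv.refl K)))

/-! ## E. `r = 5` and `r = 7` -/

/-- **JMQ** (short-medium). The matrices of `x_lam(1)`, `lam = ![0, 0, 1, 1, 1, 0]` (long) and `X_gam(1)`, `gam = ![0, 0, 0, 1, 1, 0]` (short), on the span of the `E (et6 i) + E (pv (et6 i))` (as `B0A`, `Pool/Agent/helper10/EXT/B0A.lean`), and a computation with matrices over `ZMod 2` (`decide +kernel`). -/
def JMQ_stmt : Prop := (∀ (K : Type) [Field K] (φ : ZMod 2 →+* K) (g : Lm C6 K ≃ₗ[K] Lm C6 K),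
    (IsX C6 (E C6 ![0, 0, 1, 1, 1, 0]) 1 g → Mq φ g (1 + Matrix.single 1 4 1)) ∧
    (IsS (RingEquiv.refl K) ![0, 0, 0, 1, 1, 0] 1 g → Mq φ g (1 + Matrix.single 1 3 1 + Matrix.single 2 4 1))) ∧
  P0 * P0 = (1 + Matrix.single 1 3 1 + Matrix.single 2 4 1) * (1 + Matrix.single 1 4 1) ∧ P0 * P0 * (P0 * P0) = 1 ∧
  (P0 * P0 * ((LN 0 * LN 1 * LN 0 * LN 1) * (P0 * P0) * (LN 1 * LN 0 * LN 1 * LN 0))) ^ 5 = 1 ∧
  P0 * P0 * ((LN 0 * LN 1 * LN 0 * LN 1) * (P0 * P0) * (LN 1 * LN 0 * LN 1 * LN 0)) ≠ 1 ∧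
  (P0 * P0 * ((LN 0 * LN 1 * LN 0) * (P0 * P0) * (LN 0 * LN 1 * LN 0)) *
    ((LN 0 * LP 2 * LN 2 * LN 1 * LN 0) * (P0 * P0) * (LN 0 * LN 1 * LN 2 * LP 2 * LN 0))) ^ 7 = 1 ∧
  P0 * P0 * ((LN 0 * LN 1 * LN 0) * (P0 * P0) * (LN 0 * LN 1 * LN 0)) *
    ((LN 0 * LP 2 * LN 2 * LN 1 * LN 0) * (P0 * P0) * (LN 0 * LN 1 * LN 2 * LP 2 * LN 0)) ≠ 1

/-- **JYC** (medium). uses: RTF, WPS, SGR, GFX, TOR, ESF, B0A, JMQ, JSH. As `B0Y` (`Pool/Agent/helper15/EXT/B0Y.lean`). `t ∈ GF` with `IsF (E th) 1 t`; `x t ∈ X_eta`, parameter `b ≠ 0` (`x t ≠ 1`). The word `wS 0, wS 1, wS 2, wS 0, wS 3, wS 2, wS 0, wS 3, wS 1` (applied in this order) maps `(th, eta)` to `(lam, gam)`, `lam = ![0,0,1,1,1,0]`, `gam = ![0,0,0,1,1,0]`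
(build `WS (th, eta) (lam, gam)` and check with `decide`), so WPS gives `k ∈ GS`, `k E th = E lam`, `k E eta = E gam` (signs are `1`), and `k E (pv eta) = E (pv gam)` (`k` commutes with `si`). TOR with `α = sr 3`, `t = 1/b`: `h E lam = E lam`, `h E gam = (1/b) E gam`, the same for `pv gam` (`(lam, sr 3) = 0`, `(gam, sr 3) = 1`).
`f₀` induced by `h k`: `f₀ (x t t⁻¹) f₀⁻¹` is induced by `y = X_gam(1) x_lam(1)`, `Mq φ y (P0 * P0)` (JMQ, B0A). -/
def JYC_stmt : Prop := ∀ (K : Type) [Field K] (φ : ZMod 2 →+* K) (x : MulAut (GF (RingEquiv.refl K))),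
  (∀ f : GF (RingEquiv.refl K), InX (RingEquiv.refl K) (E C6 th) (f : Equiv.Perm (LT (RingEquiv.refl K))) →
    InH 1 eta ((x f : GF (RingEquiv.refl K)) : Equiv.Perm (LT (RingEquiv.refl K)))) →
  ∃ (t f₀ : GF (RingEquiv.refl K)), ∃ y ∈ GS (RingEquiv.refl K), Mq φ y (P0 * P0) ∧
    ∀ v : LT (RingEquiv.refl K), (((f₀ * (x t * t⁻¹) * f₀⁻¹ : GF (RingEquiv.refl K)) : Equiv.Perm (LT (RingEquiv.refl K))) v : Lm C6 K) = y v

/-- **J57** (medium). uses: B0A, B0N, B0P, JYC, JMQ, SGR, GFX, GRQ, FXF. As `B57` (`Pool/Agent/helper16/EXT/B57.lean`) with `y` from JYC and the words of JMQ: `r = 5`: `z = y (h y h⁻¹)`, `h = n₀ n₁ n₀ n₁`; `r = 7`: `z = y (h₁ y h₁⁻¹) (h₂ y h₂⁻¹)`, `h₁ = n₀ n₁ n₀`, `h₂ = n₀ p₂ n₂ n₁ n₀`; `n₀ = x_{-sr 3}(1)`, `n₁ = X_{-sr 2}(1)`, `n₂ = X_{-sr 0}(1)`, `p₂ = X_{sr 0}(1)`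
with the matrices `LN 0, LN 1, LN 2, LP 2` (all of order 2). -/
def J57_stmt : Prop := ∀ (K : Type) [Field K] [Finite K] (_ : ZMod 2 →+* K) (x : MulAut (GF (RingEquiv.refl K))),
  (∀ f : GF (RingEquiv.refl K), InX (RingEquiv.refl K) (E C6 th) (f : Equiv.Perm (LT (RingEquiv.refl K))) →
    InH 1 eta ((x f : GF (RingEquiv.refl K)) : Equiv.Perm (LT (RingEquiv.refl K)))) →
  4 ∈ Pool.Agent.GS.CSet 5 x ∧ 6 ∈ Pool.Agent.GS.CSet 7 x

/-! ## F. `r = 3` -/

/-- **JRK** (medium). uses: LST, RTF, SIG, SGR, JCM. Rank one for a short root (as `RKS`, `RKO`: `Pool/Agent/helper61/EXT/RKS.lean`, `Pool/Agent/helper14/EXC/RKO.lean`). `α = sr i`, `α' = sr (pn i)`, `(a, b) = (ip α γ, ip α' γ)`. `pn i = i`: the computation of RKO for `E γ` and `α` gives `c, γ', s'`; `γ'` is short: otherwise the right side is fixed by `si`, so `E γ` would be fixed (`y`, `x` commute with `si`).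
`pn i ≠ i`: (finite check) `(a, b)` is one of `(±2, 0)`, `(0, ±2)`, `(±1, 0)`, `(0, ±1)`, `(1, -1)`, `(-1, 1)`. `y x = (x_{-α}(t) x_α(s)) (x_{-α'}(t) x_α'(s))` (the factors commute). If `b = 0`: the second factor fixes `E γ`, RKO for `α` (there `γ' = γ + k α`, so `(α', γ') = 0` and `x_α'(s')` fixes `E γ'`). `a = 0`: the same with `α'`.
`(1, -1)`, `(-1, 1)`: the second alternative by JCM (`ip α γ + ip α (pv γ) = 0`, the same for `-α`). -/
def JRK_stmt : Prop := ∀ (K : Type) [Field K], (2 : K) = 0 → ∀ (i : Fin 6) (γ : Fin 6 → ℤ) (s t : K) (x y : Lm C6 K ≃ₗ[K] Lm C6 K), SR γ →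
  XI (RingEquiv.refl K) i s x → YI (RingEquiv.refl K) i t y →
  (∃ γ', SR γ' ∧ ∃ c : K, c ≠ 0 ∧ ∃ (s' : K) (x' : Lm C6 K ≃ₗ[K] Lm C6 K), XI (RingEquiv.refl K) i s' x' ∧ y (x (E C6 γ)) = c • (x' (E C6 γ') : Lm C6 K)) ∨
  ∀ (t' : K) (g : Lm C6 K ≃ₗ[K] Lm C6 K), IsS (RingEquiv.refl K) γ t' g → y * x * g = g * (y * x)

/-- **JYS** (medium). uses: RTF, SIG, SGR, GEP, UPR, UDC, JRK. As `YSS` (`Pool/Agent/helper25/EXT/YSS.lean`), for the groups `X_γ`. Induction on `g ∈ GP = GS` (left multiplication by generators): `z = X_i(t)`: take `z u`. `z = y`, `YI i t y`: `u = u' x`, `u' ∈ GS ∩ UJ i`, `XI i s x` (UDC), `y u h' u⁻¹ y⁻¹ = (y u' y⁻¹) ((y x) h' (y x)⁻¹) (y u' y⁻¹)⁻¹`,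
`y u' y⁻¹ ∈ GS ∩ UJ i ≤ UG`. JRK: `y x (E γ') = c' x' (E γ'')`; apply `si`: `y x (E πγ') = c' x' (E πγ'')`; so `(y x) X_γ'(c t) (y x)⁻¹ = x_{c' x' E γ''}(c t) x_{c' x' E πγ''}(c t) = x' X_γ''(c' c t) x'⁻¹` (`f_XAU`, `f_EXF`; `xe (c • a) t = xe a (c t)`), `x' ∈ GS ∩ UG`. Second alternative: it is `h'`. -/
def JYS_stmt : Prop := ∀ (K : Type) [Field K], (2 : K) = 0 → ∀ g ∈ GS (RingEquiv.refl K), ∀ γ, SR γ → ∃ u ∈ GS (RingEquiv.refl K), u ∈ UG C6 K ∧
  ∃ γ', SR γ' ∧ ∃ c : K, c ≠ 0 ∧ ∀ (t : K) (h h' : Lm C6 K ≃ₗ[K] Lm C6 K), IsS (RingEquiv.refl K) γ t h → IsS (RingEquiv.refl K) γ' (c * t) h' →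
    g * h * g⁻¹ = u * h' * u⁻¹

/-- **JUM** (medium). uses: RTF, SIG, SGR. `GS ∩ UG` centralises `X_eta`. For `u ∈ UG`: `u E eta = E eta + a₁ E ![1,1,2,2,2,1] + a₂ E ![1,1,2,3,2,1] + a₃ E th` (the set of these vectors is stable under `x_δ(t)`, `δ` positive: a root `eta + δ` etc. is in this list, finite check or `f_RFP`-like; closure induction, inverses of generators are generators). `u ∈ GS` commutes with `si`, and `si` fixes the last
three root vectors: `u E (pv eta) = E (pv eta) + a₁ .. + a₂ .. + a₃ ..` (same `a_i`). `f_COL` (products of the roots involved: `1`, except `(eta, pv eta) = 0`; for sums of several vectors use it repeatedly, or conjugate by suitable elements): `x_{u E eta}(t) = x_eta(t) x_l1(a₁ t) x_l2(a₂ t) x_th(a₃ t)`, the same for `pv eta`; all factors commute, so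
`u g u⁻¹ = x_{u E eta}(t) x_{u E pv eta}(t) = g x_l1(2 a₁ t) .. = g`. (For the additivity of `xe` in the vector one can also use `xe a t v = v + t [a,v] + t² fm a v a` and the identity `[a,[b,v]] = fm a v b + fm b v a` for the pairs of roots with product `1`, which is bilinear.) -/
def JUM_stmt : Prop := ∀ (K : Type) [Field K], (2 : K) = 0 → ∀ u ∈ GS (RingEquiv.refl K), u ∈ UG C6 K → ∀ (t : K) (g : Lm C6 K ≃ₗ[K] Lm C6 K),
  IsS (RingEquiv.refl K) eta t g → u * g = g * u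

/-- **JNL** (medium). uses: LST, RTF, WST, WPS, SGR, ESF, GFX, YSS, PCS, TFS, FPT, SYT, CLF, ACS. `P` stabilises `V = ⟨E th, E β₁⟩`, `β₁ = th - sr 1`. `Om` = the (finite) set of the subsets `W = {g (s E th + t E β₁) : s t : K}`, `g ∈ GS`; `GF` acts on it by images. `U`-fixed points of `Om`: let `W` be one. `U` is a finite 2-group acting on `W` (`|K|²` elements), so the number of fixed vectors
is even, and `0` is one; a fixed vector `v ≠ 0` is in `ExS` (CLF with `c = ![s, t, 0]`; `pln`), FPT: `v = c E th`, so `E th ∈ W`. Let `b ∈ W` be independent of `E th`; `b = κ u (E β)`, `u ∈ GS ∩ UG` (YSS, ESF); `u` stabilises `W`, so `E β ∈ W`, `β ≠ th`. `TpS (E th) (E β) 1` (CLF second part, transport), TFS: `E β = [E th, v]`, so `β - th` is a root and `ip th β = 1`.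
If `β ≠ β₁`: (finite check) there is `i ≠ 1` with `ip β (sr i) = -1`; `X_i(1) E β` has the coefficient `1` at `β + sr i` (ACS resp. `f_ACT`), and `β + sr i ≠ th, β`: not in `W = ⟨E th, E β⟩`. So `W = V`. So `|Om| ≡ 1` mod 2 (`IsPGroup.card_modEq_card_fixedPoints` for `U`, a 2-group by `f_UPG`), so `P` has a fixed point in `Om`, which is `U`-fixed, so it is `V`. -/
def JNL_stmt : Prop := ∀ (K : Type) [Field K] [Finite K], (2 : K) = 0 → ∀ P : Subgroup (GF (RingEquiv.refl K)), IsPGroup 2 P →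
  (∀ f : GF (RingEquiv.refl K), InU (f : Equiv.Perm (LT (RingEquiv.refl K))) → f ∈ P) → ∀ f ∈ P, ∀ v : LT (RingEquiv.refl K), (v : Lm C6 K) = E C6 (th - sr 1) →
  ∃ κ κ' : K, (((f : GF (RingEquiv.refl K)) : Equiv.Perm (LT (RingEquiv.refl K))) v : Lm C6 K) = κ • E C6 (th - sr 1) + κ' • E C6 th

/-- **JLF** (short; finite check, `decide +kernel` over `RL`, LST). uses: LST, RTF. For every short root `γ` different from `eta, pv eta, et2, pv et2` there are a positive root `δ` and a long root `β` as stated. (Checked by computer; find them by a search in Python and give them as a table.) -/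
def JLF_stmt : Prop := ∀ γ, SR γ → γ ≠ eta → γ ≠ pv eta → γ ≠ et2 → γ ≠ pv et2 → ∃ δ β, ip C6 δ δ = 2 ∧ Pos δ ∧ ip C6 δ γ = -1 ∧
  (pv δ = δ ∨ ip C6 (pv δ) γ = 0) ∧ SR (γ + δ) ∧ LR β ∧ ip C6 γ β = -1 ∧ ip C6 δ β = 0 ∧
  β + (γ + δ) ≠ eta ∧ β + (γ + δ) ≠ pv eta ∧ ∀ x ∈ [0, γ, pv γ, γ + pv γ], ∀ y ∈ [0, eta, pv eta, eta + pv eta], γ + δ ≠ x + y

/-- **JLN** (medium). uses: LST, RTF, SGR, ESF, GFX, SYT, UNF, ACS, JSH, JCM, JNL, JYS, JUM, JLF. `A = {f : InA f}` is normalised by `P` (`f E th = E th`: SYT; JNL; `x_{κ E β₁ + κ' E th}(t) = x_β₁(κ t) x_th(κ' t)`: `f_COL`), so `x(A)` is normalised by `x(P) = P`. `x X_th = X_eta` (hypothesis), `x X_β₁ = h X_γ h⁻¹` (SwF) `= f_u X_γ' f_u⁻¹` (JYS), `u ∈ GS ∩ UG`, `f_u ∈ P`, and `f_u` centralises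
`X_eta` (JUM). So `x(A) = f_u⁻¹ x(A) f_u = X_eta X_γ'`. `γ' ≠ eta, pv eta`: otherwise `x X_β₁ = X_eta = x X_th`, `X_β₁ = X_th`, contradiction (UNF). Suppose `γ' ≠ et2, pv et2`; JLF gives `δ, β`; `D` = the element of `U ≤ P` induced by `x_δ(1)` (if `δ` is long) or `X_δ(1)`. `D X_γ'(1) D⁻¹ ∈ x(A)`: `= X_eta(a) X_γ'(b)`. Evaluate at `E β`: `D⁻¹ E β = E β` (`ip δ β = 0 = ip (pv δ) β`),
`X_γ'(1) E β = E β + E(γ' + β) + E(πγ' + β) + E(γ' + πγ' + β)` (ACS), and `D` of this has the coefficient `1` at `β + γ' + δ` (the root `γ' + β` is moved by `x_δ(1)` only: `ip δ (γ'+β) = -1`, `ip (pv δ) (γ' + β) = 0` if `δ` is short; no other term gives this root, as `γ' + δ` is short, not fixed by `pv`); the roots of `X_eta(a) X_γ'(b) E β` are `β + x + y` with `x, y` as in JLF,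
and `eta`, `pv eta` (quadratic terms).
So `γ'` is `et2` or `pv et2`, `X_γ' = X_et2` (JSH). -/
def JLN_stmt : Prop := ∀ (K : Type) [Field K] [Finite K], (2 : K) = 0 → ∀ x : MulAut (GF (RingEquiv.refl K)), x * x = 1 → SwF x →
  ∀ P : Subgroup (GF (RingEquiv.refl K)), IsPGroup 2 P → (∀ f : GF (RingEquiv.refl K), InU (f : Equiv.Perm (LT (RingEquiv.refl K))) → f ∈ P) → (∀ f ∈ P, x f ∈ P) →
  (∀ f : GF (RingEquiv.refl K), InX (RingEquiv.refl K) (E C6 th) (f : Equiv.Perm (LT (RingEquiv.refl K))) ↔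
    InH 1 eta ((x f : GF (RingEquiv.refl K)) : Equiv.Perm (LT (RingEquiv.refl K)))) →
  ∀ f : GF (RingEquiv.refl K), InA (f : Equiv.Perm (LT (RingEquiv.refl K))) → InB ((x f : GF (RingEquiv.refl K)) : Equiv.Perm (LT (RingEquiv.refl K)))

/-- **JR3** (medium). uses: RTF, SGR, ESF, GFX, UNF, GRQ, FXF, JCM, JSH. As `B03` (`Pool/Agent/helper28/EXT/B03.lean`). `g = f f'`, `IsF (E (sr 1)) 1 f`, `IsF (E (-sr 1)) 1 f'`. `f, f'` commute with `X_eta`, `X_et2` (JCM: `(± sr 1, eta) = (± sr 1, et2) = 0`), so `g` commutes with all `f` with `InB f`. For `a` with `InA a`: `x a` satisfies InB, so `g (x a) = (x a) g`; apply `x`: `x g` commutes with `a`.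
With `a ∈ X_th` and `a ∈ X_β₁`: `x g` fixes `E th` and `E β₁` (GFX, UNF), `β₁ = th - sr 1`. `Z = x g * g⁻¹` acts on the span of `E th`, `E β₁` as `g⁻¹`, so with order 3 (B03), `Z^m = 1` implies `3 ∣ m`; GRQ with `k = 1`, `t = g`. -/
def JR3_stmt : Prop := ∀ (K : Type) [Field K] [Finite K], (2 : K) = 0 → ∀ x : MulAut (GF (RingEquiv.refl K)), x * x = 1 →
  (∀ f : GF (RingEquiv.refl K), InA (f : Equiv.Perm (LT (RingEquiv.refl K))) → InB ((x f : GF (RingEquiv.refl K)) : Equiv.Perm (LT (RingEquiv.refl K)))) →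
  2 ∈ Pool.Agent.GS.CSet 3 x

/-! ## G. The theorem -/

/-- **JGR** (short; groups). (1) the same `g i`: `closure (insert (x^j) ..) ≤ closure (insert x ..)`, and the group generated by the `g i x^j (g i)⁻¹` is in that generated by the `g i x (g i)⁻¹` (`Subgroup.card_dvd_of_le`). (2) `g i (conj c x conj c⁻¹) (g i)⁻¹ = (g i conj c) x (g i conj c)⁻¹`. -/
def JGR_stmt : Prop := ∀ (S : Type) [Group S] (x : MulAut S) (r k : ℕ), (∀ j : ℕ, k ∈ Pool.Agent.GS.CSet r (x ^ j) → k ∈ Pool.Agent.GS.CSet r x) ∧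
  ∀ c : S, k ∈ Pool.Agent.GS.CSet r (MulAut.conj c * x * (MulAut.conj c)⁻¹) → k ∈ Pool.Agent.GS.CSet r x

/-- **JSI** (short-medium). uses: JSY, JXT, J57, JLN, JR3, JGR, SGR, GFX, ESF, JSH. An involution `x` with SwF. JSY: `c`, `P`; `x' = conj c * x * (conj c)⁻¹`: `x' * x' = 1`, `SwF x'` (transport: `x' X_a = c x(c⁻¹ X_a c) c⁻¹`, with GFX, ESF, JSH). JXT, J57 (`φ : ZMod 2 →+* K` from the characteristic 2: `ZMod.castHom`), JLN, JR3 for `x'`; JGR (2). -/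
def JSI_stmt : Prop := ∀ (K : Type) [Field K] [Finite K], (2 : K) = 0 → ∀ x : MulAut (GF (RingEquiv.refl K)), x * x = 1 → SwF x →
  2 ∈ Pool.Agent.GS.CSet 3 x ∧ 4 ∈ Pool.Agent.GS.CSet 5 x ∧ 6 ∈ Pool.Agent.GS.CSet 7 x

/-- **JFG** (medium). uses: JAU, JSW, JSI, JGR and the statements for `RAF` given as the hypotheses. `RAF x`: the hypothesis. Otherwise `SwF x` (JAU). `n = orderOf x` (`MulAut` of a finite group is finite): `x^(2j)` satisfies RAF (JSW for `x * x`, products of RAF are RAF), `x^(2j+1)` SwF, `1` satisfies RAF, so `n` is even (JSW). `n = 2 m`: `m` odd: `y = x^m` satisfies `SwF`, `y * y = 1`: JSI.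
`m` even: `y = x^m ≠ 1` satisfies RAF: hypothesis. JGR (1). -/
def JFG_stmt : Prop := (∀ (K : Type) [Field K] [Finite K], (2 : K) = 0 → ∀ x : MulAut (GF (RingEquiv.refl K)), RAF (RingEquiv.refl K) x → x ≠ 1 →
    (∃ k ∈ Pool.Agent.GS.CSet 3 x, k ≤ 3) ∧ 4 ∈ Pool.Agent.GS.CSet 5 x ∧ 6 ∈ Pool.Agent.GS.CSet 7 x) →
  ∀ (K : Type) [Field K] [Finite K], (2 : K) = 0 → ∀ x : MulAut (GF (RingEquiv.refl K)), x ≠ 1 →
    (∃ k ∈ Pool.Agent.GS.CSet 3 x, k ≤ 3) ∧ 4 ∈ Pool.Agent.GS.CSet 5 x ∧ 6 ∈ Pool.Agent.GS.CSet 7 x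

end Pool.Agent.EXT
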