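import Pool.Agent.helper17.EXC.Facts
import Pool.Agent.helper17.EXT.Spec
import Pool.Agent.helper32.EXT.Spec7
import Pool.Agent.helper53.EXT.SpecG
import Pool.Agent.helper16.EXT.Spec3T
import Pool.Agent.helper53.EXT.SpecB
import Pool.Agent.helper17.EXT.SpecJ
import Pool.Agent.helper43.EXT.LST
import Pool.Agent.helper74.EXT.RTF
import Pool.Agent.helper67.EXT.WST
import Pool.Agent.helper44.EXT.SIG
import Pool.Agent.helper54.EXT.SGR
import Pool.Agent.helper9.EXT.ESF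
import Pool.Agent.helper87.EXT.ACS
import Pool.Agent.helper89.EXT.GFX
import Pool.Agent.helper48.EXT.NRS
import Pool.Agent.helper50.EXT.GEP
import Pool.Agent.helper90.EXT.WPS
import Pool.Agent.helper28.EXT.UPR
import Pool.Agent.helper61.EXT.UDC
import Pool.Agent.helper61.EXT.RKS
import Pool.Agent.helper25.EXT.YSS
import Pool.Agent.helper39.EXT.PCS
import Pool.Agent.helper71.EXT.TFS
import Pool.Agent.helper56.EXT.UNF
import Pool.Agent.helper29.EXT.THF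
import Pool.Agent.helper43.EXT.IMF
import Pool.Agent.helper48.EXT.NKF
import Pool.Agent.helper66.EXT.FXF
import Pool.Agent.helper48.EXT.GEF
import Pool.Agent.helper36.EXT.TOR
import Pool.Agent.helper56.EXT.PAR
import Pool.Agent.helper68.EXT.PA2
import Pool.Agent.helper68.EXT.GRQ
import Pool.Agent.helper27.EXT.CLF
import Pool.Agent.helper56.EXT.PLF
import Pool.Agent.helper51.EXT.CNF
import Pool.Agent.helper98.EXT.RPF
import Pool.Agent.helper36.EXT.PEF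
import Pool.Agent.helper80.EXT.BPF
import Pool.Agent.helper68.EXT.FPT
import Pool.Agent.helper47.EXT.SYT
import Pool.Agent.helper41.EXT.GMT
import Pool.Agent.helper36.EXT.CUT
import Pool.Agent.helper6.EXT.CXT
import Pool.Agent.helper80.EXT.ARF
import Pool.Agent.helper42.EXT.HCJ
import Pool.Agent.helper18.EXT.YCF
import Pool.Agent.helper29.EXT.FT7
import Pool.Agent.helper52.EXT.CNY
import Pool.Agent.helper28.EXT.LA7
import Pool.Agent.helper24.EXT.EM7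
import Pool.Agent.helper89.EXT.WA7
import Pool.Agent.helper92.EXT.OR7
import Pool.Agent.helper47.EXT.Z7G
import Pool.Agent.helper44.EXT.Z7A
import Pool.Agent.helper16.EXT.BXS
import Pool.Agent.helper15.EXT.SLS
import Pool.Agent.helper6.EXT.TE7
import Pool.Agent.helper56.EXT.CV7
import Pool.Agent.helper90.EXT.Z72
import Pool.Agent.helper68.EXT.Z7B
import Pool.Agent.helper63.EXT.T7
import Pool.Agent.helper68.EXT.G5R
import Pool.Agent.helper80.EXT.G5A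
import Pool.Agent.helper80.EXT.G5S
import Pool.Agent.helper80.EXT.G5L
import Pool.Agent.helper76.EXT.G5N
import Pool.Agent.helper76.EXT.G5P
import Pool.Agent.helper81.EXT.G5X
import Pool.Agent.helper99.EXT.G5Y
import Pool.Agent.helper93.EXT.G5Z
import Pool.Agent.helper72.EXT.G5C
import Pool.Agent.helper21.EXT.G5F
import Pool.Agent.helper68.EXT3.IPR
import Pool.Agent.helper79.EXT3.IW2
import Pool.Agent.helper45.EXT3.IC0
import Pool.Agent.helper54.EXT3.IFN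
import Pool.Agent.helper64.EXT3.IAD
import Pool.Agent.helper30.EXT3.IJC
import Pool.Agent.helper9.EXT3.IKS
import Pool.Agent.helper15.EXT3.ISE
import Pool.Agent.helper10.EXT3.ISC
import Pool.Agent.helper69.EXT3.ISL
import Pool.Agent.helper19.EXT3.IM0
import Pool.Agent.helper84.EXT3.IM1
import Pool.Agent.helper18.EXT3.IM2
import Pool.Agent.helper40.EXT3.I3F
import Pool.Agent.helper79.EXT.B0R
import Pool.Agent.helper10.EXT.B0A
import Pool.Agent.helper63.EXT.B0N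
import Pool.Agent.helper15.EXT.B0Y
import Pool.Agent.helper53.EXT.B0P
import Pool.Agent.helper16.EXT.B57
import Pool.Agent.helper28.EXT.B03
import Pool.Agent.helper35.EXT.JCM
import Pool.Agent.helper40.EXT.JSH
import Pool.Agent.helper29.EXT.JCU
import Pool.Agent.helper44.EXT.JCX
import Pool.Agent.helper24.EXT.JQA
import Pool.Agent.helper47.EXT.JQF
import Pool.Agent.helper18.EXT.JLS
import Pool.Agent.helper41.EXT.JCZ
import Pool.Agent.helper72.EXT.JAU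
import Pool.Agent.helper30.EXT.JSW
import Pool.Agent.helper60.EXT.JSY
import Pool.Agent.helper79.EXT.JXT
import Pool.Agent.helper2.EXT.JMQ
import Pool.Agent.helper28.EXT.JYC
import Pool.Agent.helper78.EXT.J57
import Pool.Agent.helper69.EXT.JRK
import Pool.Agent.helper68.EXT.JYS
import Pool.Agent.helper72.EXT.JUM
import Pool.Agent.helper74.EXT.JNL
import Pool.Agent.helper51.EXT.JLF
import Pool.Agent.helper54.EXT.JLN
import Pool.Agent.helper48.EXT.JR3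
import Pool.Agent.helper27.EXT.JGR
import Pool.Agent.helper43.EXT.JSI
import Pool.Agent.helper20.EXT.JFG

/-!
# Project EXT (MP_561ff4_al): assembly of all rows
-/

set_option autoImplicit false

open Finset

namespace Pool.Agent.EXT

open Pool.Agent.EXC

theorem f_LST : LST_stmt := LST
theorem f_RTF : RTF_stmt := RTF f_LST
theorem f_WST : WST_stmt := WST f_LST f_RTF
theorem f_SIG : SIG_stmt := SIG f_RTF
theorem f_SGR : SGR_stmt := SGR f_RTF f_SIG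
theorem f_ESF : ESF_stmt := ESF f_SIG f_SGR
theorem f_ACS : ACS_stmt := ACS f_RTF
theorem f_GFX : GFX_stmt := GFX f_RTF f_SIG f_SGR f_ESF f_ACS f_WST
theorem f_NRS : NRS_stmt := NRS f_RTF f_SGR
theorem f_GEP : GEP_stmt := GEP f_RTF f_WST f_SIG f_SGR f_NRS
theorem f_WPS : WPS_stmt := WPS f_NRS f_GEP f_WST
theorem f_UPR : UPR_stmt := UPR
theorem f_UDC : UDC_stmt := UDC f_RTF f_SIG f_SGR f_UPR
theorem f_RKS : RKS_stmt := RKS f_RTF f_ACS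
theorem f_YSS : YSS_stmt := YSS f_SGR f_GEP f_UPR f_UDC f_RKS
theorem f_PCS : PCS_stmt := PCS f_RTF f_WST f_WPS f_ESF f_YSS
theorem f_TFS : TFS_stmt := TFS f_RTF f_WST f_WPS f_ESF f_GFX f_SGR
theorem f_UNF : UNF_stmt := UNF f_ESF f_GFX f_PCS f_RTF
theorem f_THF : THF_stmt := THF f_RTF f_ESF f_GFX f_PCS f_UNF f_TFS f_WST f_SGR
theorem f_IMF : IMF_stmt := IMF f_ESF f_GFX f_PCS f_UNF f_THF f_TFS
theorem f_NKF : NKF_stmt := NKF f_RTF f_SIG f_SGR f_ESF f_GFX f_ACS f_LST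
theorem f_FXF : FXF_stmt := FXF f_ESF f_GFX f_UNF f_NKF
theorem f_GEF : GEF_stmt := GEF f_RTF f_WST f_WPS f_ESF f_GFX f_PCS f_TFS f_UNF f_IMF f_FXF f_SGR
theorem f_TOR : TOR_stmt := TOR f_SGR
theorem f_PAR : PAR_stmt := PAR f_RTF f_WST f_WPS f_TOR f_TFS f_LST
theorem f_PA2 : PA2_stmt := PA2 f_PAR f_TFS f_PCS f_SGR f_RTF
theorem f_GRQ : GRQ_stmt := GRQ
theorem f_CLF : CLF_stmt := CLF f_LST f_RTF f_WST f_WPS f_SGR f_ESF f_TFS
theorem f_PLF : PLF_stmt := PLF f_CLF f_IMF f_TFS f_PCS f_UNF f_ESF f_GFX f_SIG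
theorem f_CNF : CNF_stmt := CNF f_LST f_RTF f_WST f_WPS f_SGR f_ESF f_TFS f_ACS f_GEP
theorem f_RPF : RPF_stmt := RPF f_PLF f_CNF f_IMF f_TFS f_PCS f_FXF f_ESF f_GFX f_UNF f_SGR
theorem f_PEF : PEF_stmt := PEF f_SGR f_TFS
theorem f_BPF : BPF_stmt := BPF f_RPF f_PEF f_FXF f_GFX f_GRQ
theorem f_FPT : FPT_stmt := FPT f_RTF f_SGR f_ESF f_YSS f_ACS
theorem f_SYT : SYT_stmt := SYT f_RTF f_SGR f_ESF f_GFX f_FPT
theorem f_GMT : GMT_stmt := GMT f_LST f_RTF f_SIG f_SGR f_GFX f_ACS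
theorem f_CUT : CUT_stmt := CUT f_LST f_RTF f_SIG f_SGR f_ESF f_GFX f_ACS f_UNF f_YSS
theorem f_CXT : CXT_stmt := CXT f_RTF f_SIG f_SGR f_CUT f_GMT
theorem f_ARF : ARF_stmt := ARF f_WST f_WPS f_SGR f_ESF f_GFX f_SYT f_CXT f_RTF
theorem f_HCJ : HCJ_stmt := HCJ
theorem f_YCF : YCF_stmt := YCF f_GEF f_GFX f_TFS
theorem f_FT7 : FT7_stmt := FT7 f_YCF f_GRQ f_FXF
theorem f_CNY : CNY_stmt := CNY f_PA2 f_ESF f_GFX f_UNF
theorem f_LA7 : LA7_stmt := LA7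
theorem f_EM7 : EM7_stmt := EM7 f_SIG
theorem f_WA7 : WA7_stmt := WA7 f_LA7
theorem f_OR7 : OR7_stmt := OR7 f_WA7 f_EM7
theorem f_Z7G : Z7G_stmt := Z7G f_PAR f_GFX f_ESF f_TFS f_WA7 f_OR7 f_HCJ
theorem f_Z7A : Z7A_stmt := Z7A f_Z7G
theorem f_BXS : BXS_stmt := BXS f_PCS f_PAR f_TFS f_ESF f_SGR
theorem f_SLS : SLS_stmt := SLS f_PCS f_PAR f_TFS f_ESF f_SGR
theorem f_TE7 : TE7_stmt := TE7 f_ESF f_WA7
theorem f_CV7 : CV7_stmt := CV7
theorem f_Z72 : Z72_stmt := Z72 f_TE7 f_CV7 f_OR7 f_WA7 f_BXS f_SLS f_ESF f_GFX f_SIG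
theorem f_Z7B : Z7B_stmt := Z7B f_Z72 f_CNY f_TFS f_ESF f_SIG
theorem f_T7 : T7_stmt := T7 f_FT7 f_Z7A f_Z7B
theorem f_G5R : G5R_stmt := G5R
theorem f_G5A : G5A_stmt := G5A f_G5R
theorem f_G5S : G5S_stmt := G5S
theorem f_G5L : G5L_stmt := G5L f_G5R f_G5A f_G5S f_SGR
theorem f_G5N : G5N_stmt := G5N f_G5R f_SGR f_SIG
theorem f_G5P : G5P_stmt := G5P
theorem f_G5X : G5X_stmt := G5X
theorem f_G5Y : G5Y_stmt := G5Y
theorem f_G5Z : G5Z_stmt := G5Z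
theorem f_G5C : G5C_stmt := G5C f_GEF f_PAR f_GFX f_SGR f_G5R f_G5A
theorem f_G5F : G5F_stmt := G5F f_G5C f_G5A f_G5L f_G5N f_G5P f_G5X f_G5Y f_G5Z f_GFX f_GRQ f_FXF
theorem f_IPR : IPR_stmt := IPR
theorem f_IW2 : IW2_stmt := IW2 f_RTF f_ESF f_SIG f_SGR
theorem f_IC0 : IC0_stmt := IC0 f_IW2 f_FXF f_GFX f_TFS
theorem f_IFN : IFN_stmt := IFN f_RTF f_SGR f_PCS f_TFS
theorem f_IAD : IAD_stmt := IAD f_RTF f_ESF f_SGR
theorem f_IJC : IJC_stmt := IJC f_FXF f_ESF f_GFX f_SIG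
theorem f_IKS : IKS_stmt := IKS f_ESF f_GFX f_UNF
theorem f_ISE : ISE_stmt := ISE f_ESF f_GFX f_UNF f_IMF f_TFS f_IAD
theorem f_ISC : ISC_stmt := ISC f_ISE f_CNF f_IMF f_TFS f_ESF f_GFX f_RTF
theorem f_ISL : ISL_stmt := ISL f_ESF f_GFX f_UNF f_RTF
theorem f_IM0 : IM0_stmt := IM0 f_IC0 f_IFN f_IMF f_TFS f_PCS f_ESF f_GFX
theorem f_IM1 : IM1_stmt := IM1 f_IJC f_IFN f_IAD f_IMF f_TFS f_UNF f_ESF f_GFX
theorem f_IM2 : IM2_stmt := IM2 f_IW2 f_ISC f_ISL f_IKS f_FXF f_ESF f_GFX f_TFS f_SIG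
theorem f_I3F : I3F_stmt := I3F f_IPR f_IM0 f_IM1 f_IM2 f_GEF f_PCS f_TFS
theorem f_B0R : B0R_stmt := B0R
theorem f_B0A : B0A_stmt := B0A f_B0R
theorem f_B0N : B0N_stmt := B0N f_B0R f_SIG
theorem f_B0Y : B0Y_stmt := B0Y f_B0R f_B0A f_SGR f_GFX f_TOR f_ESF
theorem f_B0P : B0P_stmt := B0P
theorem f_B57 : B57_stmt := B57 f_B0A f_B0N f_B0Y f_B0P f_SGR f_GFX f_GRQ f_FXF
theorem f_B03 : B03_stmt := B03 f_B0R f_SGR f_GFX f_GRQ f_FXF f_ESF
theorem f_JCM : JCM_stmt := JCM f_RTF f_SGR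
theorem f_JSH : JSH_stmt := JSH f_LST f_RTF f_SGR f_GFX f_ACS
theorem f_JCU : JCU_stmt := JCU f_LST f_RTF f_SIG f_SGR f_ESF f_GFX f_ACS f_UNF f_YSS
theorem f_JCX : JCX_stmt := JCX f_LST f_RTF f_SIG f_SGR f_JCM f_JCU f_GMT f_ACS
theorem f_JQA : JQA_stmt := JQA f_LST f_RTF f_SIG f_SGR
theorem f_JQF : JQF_stmt := JQF f_LST f_RTF f_SGR f_ESF f_ACS f_JCM f_JQA
theorem f_JLS : JLS_stmt := JLS f_JQF f_PCS f_ESF f_SGR f_RTF
theorem f_JCZ : JCZ_stmt := JCZ f_RTF f_SGR f_ESF f_GFX f_JQF f_JLS f_JCM f_ACS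
theorem f_JAU : JAU_stmt := JAU f_WST f_WPS f_SGR f_ESF f_GFX f_SYT f_TOR f_RTF f_JCX f_JCZ f_JSH
theorem f_JSW : JSW_stmt := JSW f_WST f_WPS f_SGR f_ESF f_GFX f_JLS f_JSH f_JAU
theorem f_JSY : JSY_stmt := JSY f_SGR f_GFX
theorem f_JXT : JXT_stmt := JXT f_SGR f_ESF f_GFX f_SYT f_JCX f_JQF f_JSH
theorem f_JMQ : JMQ_stmt := JMQ
theorem f_JYC : JYC_stmt := JYC f_RTF f_WPS f_SGR f_GFX f_TOR f_ESF f_B0A f_JMQ f_SIG
theorem f_J57 : J57_stmt := J57 f_B0A f_B0N f_B0P f_JYC f_JMQ f_SGR f_GFX f_GRQ f_FXF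
theorem f_JRK : JRK_stmt := JRK f_LST f_RTF f_SIG f_SGR f_JCM
theorem f_JYS : JYS_stmt := JYS f_RTF f_SIG f_SGR f_GEP f_UPR f_UDC f_JRK
theorem f_JUM : JUM_stmt := JUM f_LST f_RTF f_SIG f_SGR
theorem f_JNL : JNL_stmt := JNL f_LST f_RTF f_WST f_WPS f_SGR f_ESF f_GFX f_YSS f_PCS f_TFS f_FPT f_SYT f_CLF f_ACS
theorem f_JLF : JLF_stmt := JLF f_LST
theorem f_JLN : JLN_stmt := JLN f_LST f_RTF f_SGR f_ESF f_GFX f_SYT f_UNF f_ACS f_JSH f_JCM f_JNL f_JYS f_JUM f_JLF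
theorem f_JR3 : JR3_stmt := JR3 f_RTF f_SGR f_ESF f_GFX f_UNF f_GRQ f_FXF f_JCM f_JSH
theorem f_JGR : JGR_stmt := JGR
theorem f_JSI : JSI_stmt := JSI f_JSY f_JXT f_J57 f_JLN f_JR3 f_JGR f_SGR f_GFX f_ESF f_JSH
theorem f_JFG : JFG_stmt := JFG f_JAU f_JSW f_JSI f_JGR

end Pool.Agent.EXT

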