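import Pool.Agent.helper17.EXC.Facts

/-!
# Project EXT (MP_561ff4_al): the groups `F₄(q)` and `²E₆(q)`. Definitions

Everything happens in the Chevalley Lie algebra `Lm C6 K` of type `E₆` over a field `K` with an automorphism `τ`, `τ² = 1` (project EXC). `π`
is the symmetry of the diagram, `si τ` the semilinear automorphism `σ` of the Lie algebra which maps `c E_γ` to `± τ(c) E_{πγ}`; `LT τ` the set
of its fixed vectors. `GS τ` is generated by the `x_β(t)`, `β` a root fixed by `π` (long root), `τ t = t`, and the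
`x_γ(t) x_{πγ}(± τ t)`, `γ` a root not fixed by `π` (short root), `t ∈ K`. `GF τ` is the group of the permutations of `LT τ` induced by
`GS τ`: for `τ = 1` the group `F₄(K)`, for `K = F_{q²}`, `τ(t) = t^q` the group `²E₆(q)`.
-/

set_option autoImplicit false

open Finset

namespace Pool.Agent.EXT

open Pool.Agent.EXC

instance iE6 : IsC CartanMatrix.E₆ := f_DE6.1

/-- the Cartan matrix of type `E₆` -/
abbrev C6 : Matrix (Fin 6) (Fin 6) ℤ := CartanMatrix.E₆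

/-- the symmetry of the diagram on the nodes -/
def pn : Fin 6 → Fin 6 := ![5, 1, 4, 3, 2, 0]

/-- the symmetry of the diagram on vectors -/
def pv (v : Fin 6 → ℤ) : Fin 6 → ℤ := fun i => v (pn i)

/-- the sign `s(v)` -/
def sn (v : Fin 6 → ℤ) : ℤ := if Even (v 0 * v 2 + v 2 * v 3 + v 3 * v 4 + v 4 * v 5) then 1 else -1

/-- long roots: the roots fixed by the symmetry -/
def LR (β : Fin 6 → ℤ) : Prop := ip C6 β β = 2 ∧ pv β = β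

/-- short roots: the roots not fixed by the symmetry -/
def SR (γ : Fin 6 → ℤ) : Prop := ip C6 γ γ = 2 ∧ pv γ ≠ γ

/-- the highest root -/
def th : Fin 6 → ℤ := ![1, 2, 2, 3, 2, 1]

/-- the roots of `E₆` -/
def RL : List (Fin 6 → ℤ) := [
  ![0, 0, 0, 0, 0, 1], ![0, 0, 0, 0, 1, 0], ![0, 0, 0, 1, 0, 0], ![0, 0, 1, 0, 0, 0], ![0, 1, 0, 0, 0, 0], 
  ![1, 0, 0, 0, 0, 0], ![0, 0, 0, 0, 1, 1], ![0, 0, 0, 1, 1, 0], ![0, 0, 1, 1, 0, 0], ![0, 1, 0, 1, 0, 0], 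
  ![1, 0, 1, 0, 0, 0], ![0, 0, 0, 1, 1, 1], ![0, 0, 1, 1, 1, 0], ![0, 1, 0, 1, 1, 0], ![0, 1, 1, 1, 0, 0], 
  ![1, 0, 1, 1, 0, 0], ![0, 0, 1, 1, 1, 1], ![0, 1, 0, 1, 1, 1], ![0, 1, 1, 1, 1, 0], ![1, 0, 1, 1, 1, 0], 
  ![1, 1, 1, 1, 0, 0], ![0, 1, 1, 1, 1, 1], ![0, 1, 1, 2, 1, 0], ![1, 0, 1, 1, 1, 1], ![1, 1, 1, 1, 1, 0], 
  ![0, 1, 1, 2, 1, 1], ![1, 1, 1, 1, 1, 1], ![1, 1, 1, 2, 1, 0], ![0, 1, 1, 2, 2, 1], ![1, 1, 1, 2, 1, 1], 
  ![1, 1, 2, 2, 1, 0], ![1, 1, 1, 2, 2, 1], ![1, 1, 2, 2, 1, 1], ![1, 1, 2, 2, 2, 1], ![1, 1, 2, 3, 2, 1], 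
  ![1, 2, 2, 3, 2, 1], ![0, 0, 0, 0, 0, -1], ![0, 0, 0, 0, -1, 0], ![0, 0, 0, -1, 0, 0], ![0, 0, -1, 0, 0, 0], 
  ![0, -1, 0, 0, 0, 0], ![-1, 0, 0, 0, 0, 0], ![0, 0, 0, 0, -1, -1], ![0, 0, 0, -1, -1, 0], ![0, 0, -1, -1, 0, 0], 
  ![0, -1, 0, -1, 0, 0], ![-1, 0, -1, 0, 0, 0], ![0, 0, 0, -1, -1, -1], ![0, 0, -1, -1, -1, 0], ![0, -1, 0, -1, -1, 0], 
  ![0, -1, -1, -1, 0, 0], ![-1, 0, -1, -1, 0, 0], ![0, 0, -1, -1, -1, -1], ![0, -1, 0, -1, -1, -1], ![0, -1, -1, -1, -1, 0], 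
  ![-1, 0, -1, -1, -1, 0], ![-1, -1, -1, -1, 0, 0], ![0, -1, -1, -1, -1, -1], ![0, -1, -1, -2, -1, 0], ![-1, 0, -1, -1, -1, -1], 
  ![-1, -1, -1, -1, -1, 0], ![0, -1, -1, -2, -1, -1], ![-1, -1, -1, -1, -1, -1], ![-1, -1, -1, -2, -1, 0], ![0, -1, -1, -2, -2, -1], 
  ![-1, -1, -1, -2, -1, -1], ![-1, -1, -2, -2, -1, 0], ![-1, -1, -1, -2, -2, -1], ![-1, -1, -2, -2, -1, -1], ![-1, -1, -2, -2, -2, -1], 
  ![-1, -1, -2, -3, -2, -1], ![-1, -2, -2, -3, -2, -1]]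

/-- reflection of the relative Weyl group -/
def wS (i : Fin 6) (v : Fin 6 → ℤ) : Fin 6 → ℤ := if pn i = i then rf C6 i v else rf C6 i (rf C6 (pn i) v)

/-- two pairs of vectors are in the same orbit of the relative Weyl group -/
def WS : (Fin 6 → ℤ) × (Fin 6 → ℤ) → (Fin 6 → ℤ) × (Fin 6 → ℤ) → Prop :=
  Relation.ReflTransGen fun p q => ∃ i, q = (wS i p.1, wS i p.2)

variable {K : Type} [Field K] (τ : K ≃+* K)

/-- the semilinear automorphism `σ` of the Lie algebra -/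
noncomputable def si (v : Lm C6 K) : Lm C6 K := (fun i => τ (v.1 (pn i)), fun γ => (sn γ.1 : K) * τ (cf v (pv γ.1)))

/-- the fixed vectors of `σ` -/
def LT : Set (Lm C6 K) := {v | si τ v = v}

/-- the linear bijection `g` is `x_γ(t) x_{πγ}(± τ t)` -/
def IsS (γ : Fin 6 → ℤ) (t : K) (g : Lm C6 K ≃ₗ[K] Lm C6 K) : Prop :=
  ∀ v, g v = xe C6 (E C6 γ) t (xe C6 (E C6 (pv γ)) ((sn γ : K) * τ t) v)

/-- the group of linear maps generated by the long and short root elements -/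
def GS : Subgroup (Lm C6 K ≃ₗ[K] Lm C6 K) := Subgroup.closure
  {g | (∃ β t, LR β ∧ τ t = t ∧ IsX C6 (E C6 β) t g) ∨ ∃ γ t, SR γ ∧ IsS τ γ t g}

/-- the group `F₄(K)` or `²E₆`: the permutations of `LT τ` induced by `GS τ` -/
def GF : Subgroup (Equiv.Perm (LT τ)) where
  carrier := {f | ∃ g ∈ GS τ, ∀ v : LT τ, (f v : Lm C6 K) = g v}
  one_mem' := ⟨1, one_mem _, fun _ => rfl⟩
  mul_mem' := by
    rintro f f' ⟨g, hg, h⟩ ⟨g', hg', h'⟩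
    exact ⟨g * g', mul_mem hg hg', fun v => by
      rw [Equiv.Perm.mul_apply, h, h']; rfl⟩
  inv_mem' := by
    rintro f ⟨g, hg, h⟩
    refine ⟨g⁻¹, inv_mem hg, fun v => ?_⟩
    have e := h (f⁻¹ v)
    have e2 : f (f⁻¹ v) = v := f.apply_symm_apply v
    rw [e2] at e
    rw [e]
    exact (LinearEquiv.symm_apply_apply g _).symm

/-- long root vectors: multiples of `g (E β)`, `g` in the group, `β` a long root -/
def ExS (a : Lm C6 K) : Prop := ∃ g ∈ GS τ, ∃ β, LR β ∧ ∃ c : K, τ c = c ∧ c ≠ 0 ∧ a = c • g (E C6 β)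

/-- the pair `(a, b)` is conjugate to `(c E θ, c' E β)` with `(θ, β) = m` -/
def TpS (a b : Lm C6 K) (m : ℤ) : Prop :=
  ∃ k ∈ GS τ, ∃ β, LR β ∧ ip C6 th β = m ∧ ∃ c c' : K, τ c = c ∧ τ c' = c' ∧ c ≠ 0 ∧ c' ≠ 0 ∧ k a = c • E C6 th ∧ k b = c' • E C6 β

/-- the permutation `f` of `LT τ` is the root element `x_a(t)` -/
def IsF (a : Lm C6 K) (t : K) (f : Equiv.Perm (LT τ)) : Prop := ∀ v : LT τ, (f v : Lm C6 K) = xe C6 a t v

/-- `f` is in the root subgroup `X_a` -/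
def InX (a : Lm C6 K) (f : Equiv.Perm (LT τ)) : Prop := ∃ t, τ t = t ∧ IsF τ a t f

/-- the automorphism `x` maps the root subgroup `X_a` onto `X_b` -/
def ImF (x : MulAut (GF τ)) (a b : Lm C6 K) : Prop :=
  ∀ f : GF τ, InX τ a (f : Equiv.Perm (LT τ)) ↔ InX τ b ((x f : GF τ) : Equiv.Perm (LT τ))

/-- the automorphism `x` maps long root subgroups to long root subgroups -/
def RAF (x : MulAut (GF τ)) : Prop := ∀ a, ExS τ a → ∃ b, ExS τ b ∧ ImF τ x a b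

/-- the relative simple root elements -/
def XI (i : Fin 6) (t : K) (g : Lm C6 K ≃ₗ[K] Lm C6 K) : Prop :=
  (pn i = i ∧ τ t = t ∧ IsX C6 (E C6 (sr i)) t g) ∨ (pn i ≠ i ∧ IsS τ (sr i) t g)

/-- the relative root elements for the negative simple roots -/
def YI (i : Fin 6) (t : K) (g : Lm C6 K ≃ₗ[K] Lm C6 K) : Prop :=
  (pn i = i ∧ τ t = t ∧ IsX C6 (E C6 (-sr i)) t g) ∨ (pn i ≠ i ∧ IsS τ (-sr i) t g)

/-- the group generated by the relative simple root elements -/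
def GP : Subgroup (Lm C6 K ≃ₗ[K] Lm C6 K) := Subgroup.closure {g | ∃ i t, XI τ i t g ∨ YI τ i t g}

/-- the unipotent group `U_{i, πi}` of `E₆` -/
def UJ (K : Type) [Field K] (i : Fin 6) : Subgroup (Lm C6 K ≃ₗ[K] Lm C6 K) :=
  Subgroup.closure {g | ∃ δ, ip C6 δ δ = 2 ∧ Pos δ ∧ δ ≠ sr i ∧ δ ≠ sr (pn i) ∧ ∃ t, IsX C6 (E C6 δ) t g}

end Pool.Agent.EXT
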